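import Mathlib

/-!
# Integers near powers of `g`: the logarithm of `g ^ k + c`, and an integrality lemma
-/

set_option autoImplicit false

namespace Pool.Agent.K4H73.NP

/-- `n` differs from a power `g ^ k` by at most the cube root of `k`. -/
def Near (g n : ℕ) : Prop := ∃ k : ℕ, |(n : ℤ) - (g : ℤ) ^ k| ^ 3 ≤ k

/-- `n = g ^ k + c` with `|c| ^ 3 ≤ k`. -/
structure Nr (g n k : ℕ) (c : ℤ) : Prop where
  eq : (n : ℤ) = (g : ℤ) ^ k + c
  le : |c| ^ 3 ≤ k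
  pos : 1 ≤ k

lemma Near.nr {g n : ℕ} (hn : 2 ≤ n) (h : Near g n) : ∃ k c, Nr g n k c := by
  obtain ⟨k, hk⟩ := h
  refine ⟨k, (n : ℤ) - (g : ℤ) ^ k, by ring, hk, ?_⟩
  by_contra h0
  have hk0 : k = 0 := by omega
  subst hk0
  simp only [pow_zero, Nat.cast_zero] at hk
  have h1 : (1 : ℤ) ≤ |(n : ℤ) - 1| := by
    rw [abs_of_nonneg (by omega)]; omega
  have h2 : (1 : ℤ) ≤ |(n : ℤ) - 1| ^ 3 := one_le_pow₀ h1
  omega

/-- `g ^ (-n)` -/
noncomputable def w (g n : ℕ) : ℝ := ((g : ℝ) ^ n)⁻¹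

section w
variable {g : ℕ}

lemma w_pos (hg : 2 ≤ g) (n : ℕ) : 0 < w g n := by
  have : (0 : ℝ) < g := by exact_mod_cast (by omega : 0 < g)
  unfold w; positivity

lemma w_add (a b : ℕ) : w g (a + b) = w g a * w g b := by
  unfold w; rw [pow_add, mul_inv]

lemma w_anti (hg : 2 ≤ g) {a b : ℕ} (h : a ≤ b) : w g b ≤ w g a := by
  have h1 : (1 : ℝ) ≤ g := by exact_mod_cast (by omega : 1 ≤ g)
  have h0 : (0 : ℝ) < g := by linarith
  unfold w
  exact inv_anti₀ (by positivity) (pow_le_pow_right₀ h1 h)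

lemma w_le_one (hg : 2 ≤ g) (n : ℕ) : w g n ≤ 1 := by
  have := w_anti hg (Nat.zero_le n)
  simpa [w] using this

lemma w_le_mul (hg : 2 ≤ g) {a b c : ℕ} (h : a + b ≤ c) : w g c ≤ w g a * w g b := by
  rw [← w_add]; exact w_anti hg h

lemma w_two (hg : 2 ≤ g) (n : ℕ) : w g n ≤ ((2 : ℝ) ^ n)⁻¹ := by
  have h1 : (2 : ℝ) ≤ g := by exact_mod_cast hg
  unfold w
  exact inv_anti₀ (by positivity) (pow_le_pow_left₀ (by norm_num) h1 n)

end w

lemma log_bound {z : ℝ} (hz : |z| ≤ 1 / 2) : |Real.log (1 + z) - z| ≤ 2 * z ^ 2 := by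
  have h := Real.abs_log_sub_add_sum_range_le (x := -z) (by rw [abs_neg]; linarith) 1
  simp only [Finset.range_one, Finset.sum_singleton, zero_add, pow_one, Nat.cast_zero, div_one,
    sub_neg_eq_add, abs_neg] at h
  have h2 : |z| ^ (1 + 1) / (1 - |z|) ≤ 2 * z ^ 2 := by
    rw [div_le_iff₀ (by linarith)]
    have : |z| ^ (1 + 1) = z ^ 2 := by norm_num
    rw [this]
    nlinarith [sq_nonneg z]
  have h3 : Real.log (1 + z) - z = -z + Real.log (1 + z) := by ring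
  rw [h3]
  exact h.trans h2

/-- the analytic data of a number near a power: exponent `k ≤ m`, deviation `c`, and
`ε = log n - k log g` -/
structure Dat (g m k : ℕ) (c : ℤ) (ε : ℝ) : Prop where
  cub : |c| ^ 3 ≤ k
  pos : 1 ≤ k
  le : k ≤ m
  ex : ε = Real.log (1 + c * w g k)

lemma abs_le_cube (c : ℤ) : |c| ≤ |c| ^ 3 := by
  rcases eq_or_ne c 0 with h | h
  · simp [h]
  · have h1 : (1 : ℤ) ≤ |c| := Int.one_le_abs h
    calc |c| = |c| ^ 1 := (pow_one _).symm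
      _ ≤ |c| ^ 3 := pow_le_pow_right₀ h1 (by norm_num)

lemma two_mul_le_two_pow {k : ℕ} (hk : 1 ≤ k) : 2 * k ≤ 2 ^ k := by
  induction k, hk using Nat.le_induction with
  | base => norm_num
  | succ k hk ih =>
    rw [pow_succ]
    have : 1 ≤ 2 ^ k := Nat.one_le_two_pow
    omega

lemma z_half {g k : ℕ} {c : ℤ} (hg : 2 ≤ g) (hc : |c| ^ 3 ≤ k) (hk : 1 ≤ k) :
    |(c : ℝ) * w g k| ≤ 1 / 2 := by
  have hc1 : |c| ≤ k := (abs_le_cube c).trans hc
  have hc2 : |(c : ℝ)| ≤ k := by rw [← Int.cast_abs]; exact_mod_cast hc1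
  have h2k : (2 * k : ℝ) ≤ 2 ^ k := by exact_mod_cast two_mul_le_two_pow hk
  rw [abs_mul, abs_of_pos (w_pos hg k)]
  have h1 := w_two hg k
  have h3 : |(c : ℝ)| * w g k ≤ k * ((2 : ℝ) ^ k)⁻¹ :=
    mul_le_mul hc2 h1 (w_pos hg k).le (by positivity)
  refine h3.trans ?_
  rw [← div_eq_mul_inv, div_le_iff₀ (by positivity)]
  linarith

lemma Dat.near {g m k : ℕ} {c : ℤ} {ε : ℝ} (hg : 2 ≤ g) (D : Dat g m k c ε) :
    |ε - c * w g k| ≤ 2 * (c * w g k) ^ 2 := by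
  rw [D.ex]
  exact log_bound (z_half hg D.cub D.pos)

lemma Nr.dat {g n k m : ℕ} {c : ℤ} (hg : 2 ≤ g) (h : Nr g n k c) (hm : k ≤ m) :
    Dat g m k c (Real.log n - k * Real.log g) := by
  refine ⟨h.le, h.pos, hm, ?_⟩
  have hg0 : (0 : ℝ) < g := by exact_mod_cast (by omega : 0 < g)
  have hgk : (0 : ℝ) < (g : ℝ) ^ k := by positivity
  have hz := z_half hg h.le h.pos
  have hn : (n : ℝ) = (g : ℝ) ^ k * (1 + c * w g k) := by
    have : (n : ℝ) = (g : ℝ) ^ k + c := by exact_mod_cast h.eq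
    rw [this]; unfold w; field_simp
  have h1z : 0 < 1 + (c : ℝ) * w g k := by
    have := (abs_le.1 hz).1
    linarith
  rw [hn, Real.log_mul hgk.ne' h1z.ne', Real.log_pow]
  ring

/-- The integrality lemma. -/
lemma int_ne {g k δ : ℕ} {c₁ c₂ : ℤ} (hg : 2 ≤ g) (hk : 257 ≤ k) (hδ : 1 ≤ δ)
    (h₂ : |c₂| ^ 3 ≤ 8 * (k + δ : ℕ)) (h : (k + δ : ℕ) * c₁ * g ^ δ = k * c₂) : c₁ = 0 := by
  by_contra hc
  obtain ⟨A, hA⟩ : ∃ A : ℕ, (A : ℤ) = |c₁| := ⟨c₁.natAbs, by simp⟩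
  obtain ⟨B, hB⟩ : ∃ B : ℕ, (B : ℤ) = |c₂| := ⟨c₂.natAbs, by simp⟩
  have hA1 : 1 ≤ A := by
    have : (1 : ℤ) ≤ |c₁| := Int.one_le_abs hc
    omega
  have hAB : (k + δ) * A * g ^ δ = k * B := by
    have h1 := congrArg (fun x : ℤ => |x|) h
    simp only [abs_mul, abs_pow, Nat.abs_cast] at h1
    rw [← hA, ← hB] at h1
    exact_mod_cast h1
  have hB3 : B ^ 3 ≤ 8 * (k + δ) := by
    have : (B : ℤ) ^ 3 ≤ 8 * (k + δ : ℕ) := by rw [hB]; exact h₂
    exact_mod_cast this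
  set G := g ^ δ with hG
  have hG1 : 1 ≤ G := Nat.one_le_pow _ _ (by omega)
  have hGA : 1 ≤ A * G := Nat.mul_pos hA1 hG1
  have h1 : k * B = k * (A * G) + δ * (A * G) := by rw [← hAB]; ring
  have hBgt : A * G < B := by
    by_contra hle
    push Not at hle
    have : k * B ≤ k * (A * G) := Nat.mul_le_mul_left _ hle
    have : 1 ≤ δ * (A * G) := Nat.mul_pos hδ hGA
    omega
  have hkle : k ≤ δ * B := by
    obtain ⟨t, ht⟩ : ∃ t, B = A * G + t := ⟨B - A * G, by omega⟩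
    have ht1 : 1 ≤ t := by omega
    have h2 : k * t = δ * (A * G) := by
      rw [ht, mul_add] at h1
      omega
    calc k = k * 1 := (mul_one _).symm
      _ ≤ k * t := Nat.mul_le_mul_left _ ht1
      _ = δ * (A * G) := h2
      _ ≤ δ * B := Nat.mul_le_mul_left _ hBgt.le
  have hδ3 : δ ^ 3 ≤ 8 * (k + δ) := by
    have h2 : δ ≤ 2 ^ δ := Nat.lt_two_pow_self.le
    have h3 : 2 ^ δ ≤ G := Nat.pow_le_pow_left hg δ
    have h4 : G ≤ B := by
      have : G ≤ A * G := Nat.le_mul_of_pos_left _ hA1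
      omega
    exact (Nat.pow_le_pow_left (h2.trans (h3.trans h4)) 3).trans hB3
  have hk3 : k ^ 3 ≤ δ ^ 3 * (8 * (k + δ)) := by
    calc k ^ 3 ≤ (δ * B) ^ 3 := Nat.pow_le_pow_left hkle 3
      _ = δ ^ 3 * B ^ 3 := by ring
      _ ≤ _ := Nat.mul_le_mul_left _ hB3
  rcases Nat.lt_or_ge δ k with hlt | hge
  · have h5 : k ^ 3 ≤ (8 * (2 * k)) * (8 * (2 * k)) := by
      refine hk3.trans (Nat.mul_le_mul (hδ3.trans ?_) ?_) <;> omega
    have h6 : k * (k * k) ≤ 256 * (k * k) := by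
      calc k * (k * k) = k ^ 3 := by ring
        _ ≤ _ := h5
        _ = 256 * (k * k) := by ring
    have h7 : 0 < k * k := by positivity
    have := Nat.le_of_mul_le_mul_right h6 h7
    omega
  · have h5 : δ ^ 3 ≤ 16 * δ := hδ3.trans (by omega)
    have h6 : (δ * δ) * δ ≤ 16 * δ := by
      calc (δ * δ) * δ = δ ^ 3 := by ring
        _ ≤ _ := h5
    have h7 := Nat.le_of_mul_le_mul_right h6 (by omega)
    nlinarith

end Pool.Agent.K4H73.NP
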