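import Mathlib
import Pool.Agent.K4H73.NP.Basic

/-!
# Lower bounds for `k₂ ε₁ ± k₁ ε₂`
-/

set_option autoImplicit false

namespace Pool.Agent.K4H73.NP

/-- the size conditions: all exponents are at most `m`, and `2 ^ 20 m ^ 6 ≤ 2 ^ r` -/
structure Sz (g m r : ℕ) : Prop where
  hg : 2 ≤ g
  hm : 1 ≤ m
  hr : 2 ^ 20 * m ^ 6 ≤ 2 ^ r

section
variable {g m r : ℕ}

lemma Sz.r20 (S : Sz g m r) : 20 ≤ r := by
  by_contra h
  push Not at h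
  have h1 : 2 ^ r < 2 ^ 20 := Nat.pow_lt_pow_right (by norm_num) h
  have h2 : 1 ≤ m ^ 6 := Nat.one_le_pow _ _ S.hm
  have := S.hr
  omega

lemma Sz.m1 (S : Sz g m r) : (1 : ℝ) ≤ m := by exact_mod_cast S.hm

lemma Sz.wr (S : Sz g m r) {p : ℕ} (hp : p ≤ 6) : (m : ℝ) ^ p * w g r ≤ 1 / 2 ^ 20 := by
  have h1 : (2 : ℝ) ^ 20 * (m : ℝ) ^ 6 ≤ 2 ^ r := by exact_mod_cast S.hr
  have h2 : (m : ℝ) ^ p ≤ (m : ℝ) ^ 6 := pow_le_pow_right₀ S.m1 hp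
  have h3 := w_two S.hg (g := g) r
  have h4 : (m : ℝ) ^ p * w g r ≤ (m : ℝ) ^ 6 * ((2 : ℝ) ^ r)⁻¹ :=
    mul_le_mul h2 h3 (w_pos S.hg r).le (by positivity)
  refine h4.trans ?_
  rw [← div_eq_mul_inv, div_le_div_iff₀ (by positivity) (by positivity)]
  linarith

lemma Sz.k_big (S : Sz g m r) {k : ℕ} (hk : 16 * r ^ 2 ≤ k) : 320 * r ≤ k := by
  have := S.r20
  nlinarith

variable {k : ℕ} {c : ℤ} {ε : ℝ}

lemma Dat.c_le (D : Dat g m k c ε) : |(c : ℝ)| ≤ m := by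
  have h1 : |c| ≤ k := (abs_le_cube c).trans D.cub
  have h2 : |c| ≤ (m : ℤ) := h1.trans (by exact_mod_cast D.le)
  rw [← Int.cast_abs]; exact_mod_cast h2

lemma Dat.k_le (D : Dat g m k c ε) : (k : ℝ) ≤ m := by exact_mod_cast D.le

lemma Dat.z_le (S : Sz g m r) (D : Dat g m k c ε) : |(c : ℝ) * w g k| ≤ m * w g k := by
  rw [abs_mul, abs_of_pos (w_pos S.hg k)]
  exact mul_le_mul_of_nonneg_right D.c_le (w_pos S.hg k).le

lemma Dat.z_small (S : Sz g m r) (D : Dat g m k c ε) (hk : r ≤ k) :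
    |(c : ℝ) * w g k| ≤ 1 / 2 ^ 20 := by
  have h1 := S.wr (p := 1) (by norm_num)
  rw [pow_one] at h1
  refine (D.z_le S).trans (le_trans ?_ h1)
  exact mul_le_mul_of_nonneg_left (w_anti S.hg hk) (by linarith [S.m1])

lemma Dat.err (S : Sz g m r) (D : Dat g m k c ε) :
    |ε - c * w g k| ≤ 2 * (m ^ 2 * w g k ^ 2) := by
  refine (D.near S.hg).trans ?_
  have h1 := D.z_le S
  have h2 : ((c : ℝ) * w g k) ^ 2 ≤ (m * w g k) ^ 2 := by
    rw [← sq_abs]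
    exact pow_le_pow_left₀ (abs_nonneg _) h1 2
  linarith [mul_pow (m : ℝ) (w g k) 2]

lemma Dat.ε_le_z (S : Sz g m r) (D : Dat g m k c ε) (hk : r ≤ k) :
    |ε| ≤ 2 * |(c : ℝ) * w g k| := by
  have h1 := D.near S.hg
  have h2 := D.z_small S hk
  set z := (c : ℝ) * w g k
  have h3 : |ε| ≤ |ε - z| + |z| := by
    have := abs_add_le (ε - z) z
    simpa using this
  have h4 : z ^ 2 = |z| * |z| := by rw [← sq, sq_abs]
  nlinarith [abs_nonneg z]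

lemma Dat.ε_le (S : Sz g m r) (D : Dat g m k c ε) (hk : r ≤ k) : |ε| ≤ 2 * m * w g k := by
  have h1 := D.ε_le_z S hk
  have h2 := D.z_le S
  linarith

lemma Dat.ε_ge_z (S : Sz g m r) (D : Dat g m k c ε) (hk : r ≤ k) :
    |(c : ℝ) * w g k| / 2 ≤ |ε| := by
  have h1 := D.near S.hg
  have h2 := D.z_small S hk
  set z := (c : ℝ) * w g k
  have h3 : |z| ≤ |ε - z| + |ε| := by
    have := abs_sub_abs_le_abs_sub z ε
    rw [abs_sub_comm] at this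
    linarith
  have h4 : z ^ 2 = |z| * |z| := by rw [← sq, sq_abs]
  nlinarith [abs_nonneg z]

lemma Dat.ε_ge (S : Sz g m r) (D : Dat g m k c ε) (hk : r ≤ k) (hc : c ≠ 0) :
    w g k / 2 ≤ |ε| := by
  refine le_trans ?_ (D.ε_ge_z S hk)
  have h1 : (1 : ℝ) ≤ |(c : ℝ)| := by
    rw [← Int.cast_abs]; exact_mod_cast Int.one_le_abs hc
  rw [abs_mul, abs_of_pos (w_pos S.hg k)]
  have := mul_le_mul_of_nonneg_right h1 (w_pos S.hg k).le
  linarith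

lemma Dat.ε_zero (D : Dat g m k c ε) (hc : c = 0) : ε = 0 := by
  rw [D.ex, hc]; simp

end

/-- The lower bound for `k₂ ε₁ ± k₁ ε₂`. -/
lemma T_bound {g m r k₁ k₂ : ℕ} {c₁ c₂ : ℤ} {ε₁ ε₂ : ℝ} (S : Sz g m r)
    (D₁ : Dat g m k₁ c₁ ε₁) (D₂ : Dat g m k₂ c₂ ε₂) (hk : 16 * r ^ 2 ≤ k₁) (h12 : k₁ < k₂)
    (hc : c₁ ≠ 0) (σ : ℤ) (hσ : σ = 1 ∨ σ = -1) :
    (k₁ + r ≤ k₂ → w g k₁ / 4 ≤ |k₂ * ε₁ + σ * k₁ * ε₂|) ∧
    (k₂ < k₁ + r → w g k₂ / 2 ≤ |k₂ * ε₁ + σ * k₁ * ε₂|) := by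
  have hg := S.hg
  have hm := S.m1
  have hr20 := S.r20
  have hkb := S.k_big hk
  have hσa : |(σ : ℝ)| = 1 := by rcases hσ with h | h <;> simp [h]
  have hw1 := w_pos hg k₁
  have hw2 := w_pos hg k₂
  have hwr := w_pos hg r
  have hk1m : (k₁ : ℝ) ≤ m := D₁.k_le
  have hk2m : (k₂ : ℝ) ≤ m := D₂.k_le
  have hk10 : (0 : ℝ) ≤ k₁ := Nat.cast_nonneg _
  have hk21 : (1 : ℝ) ≤ k₂ := by exact_mod_cast D₂.pos
  constructor
  · intro hfar
    have h1 := D₁.ε_ge S (by omega) hc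
    have h2 := D₂.ε_le S (by omega)
    have h3 : w g k₂ ≤ w g k₁ * w g r := w_le_mul hg hfar
    have h4 : |(k₂ : ℝ) * ε₁| - |(σ : ℝ) * k₁ * ε₂| ≤ |k₂ * ε₁ + σ * k₁ * ε₂| := by
      have := abs_sub_abs_le_abs_sub ((k₂ : ℝ) * ε₁) (-((σ : ℝ) * k₁ * ε₂))
      rwa [abs_neg, sub_neg_eq_add] at this
    have h5 : w g k₁ / 2 ≤ |(k₂ : ℝ) * ε₁| := by
      rw [abs_mul, Nat.abs_cast]
      nlinarith [abs_nonneg ε₁]
    have h6 : |(σ : ℝ) * k₁ * ε₂| ≤ w g k₁ / 4 := by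
      rw [abs_mul, abs_mul, hσa, Nat.abs_cast, one_mul]
      have h7 : (k₁ : ℝ) * |ε₂| ≤ m * (2 * m * (w g k₁ * w g r)) := by
        apply mul_le_mul hk1m _ (abs_nonneg _) (by linarith)
        exact h2.trans (mul_le_mul_of_nonneg_left h3 (by linarith))
      have h8 := S.wr (p := 2) (by norm_num)
      have h9 : (m : ℝ) * (2 * m * (w g k₁ * w g r)) = 2 * w g k₁ * ((m : ℝ) ^ 2 * w g r) := by ring
      rw [h9] at h7
      have h10 : 2 * w g k₁ * ((m : ℝ) ^ 2 * w g r) ≤ 2 * w g k₁ * (1 / 2 ^ 20) :=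
        mul_le_mul_of_nonneg_left h8 (by linarith)
      have h11 : 2 * w g k₁ * (1 / 2 ^ 20) ≤ w g k₁ / 4 := by
        norm_num
        linarith
      linarith
    linarith
  · intro hnear
    obtain ⟨δ, hδ⟩ : ∃ δ, k₂ = k₁ + δ := ⟨k₂ - k₁, by omega⟩
    have hδ1 : 1 ≤ δ := by omega
    have hw12 : w g k₂ = w g k₁ * w g δ := by rw [hδ, w_add]
    have hgδ : w g δ * (g : ℝ) ^ δ = 1 := by
      unfold w
      have : (0 : ℝ) < g := by exact_mod_cast (by omega : 0 < g)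
      field_simp
    set I : ℤ := (k₁ + δ : ℕ) * c₁ * g ^ δ + σ * k₁ * c₂ with hI
    have hI0 : I ≠ 0 := by
      intro h0
      refine hc (int_ne (c₂ := -σ * c₂) hg (k := k₁) (by omega) hδ1 ?_ ?_)
      · have : |-σ * c₂| = |c₂| := by
          rcases hσ with h | h <;> simp [h]
        rw [this]
        have := D₂.cub
        rw [hδ] at this
        have h1 : (0 : ℤ) ≤ ((k₁ + δ : ℕ) : ℤ) := by positivity
        linarith
      · linear_combination h0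
    have hI1 : (1 : ℝ) ≤ |(I : ℝ)| := by
      rw [← Int.cast_abs]; exact_mod_cast Int.one_le_abs hI0
    have hmain : (k₂ : ℝ) * (c₁ * w g k₁) + σ * k₁ * (c₂ * w g k₂) = w g k₂ * I := by
      have h1 : w g k₁ = w g k₂ * (g : ℝ) ^ δ := by
        rw [hw12, mul_assoc, hgδ, mul_one]
      rw [h1, hI]
      push_cast
      rw [hδ]
      push_cast
      ring
    have herr : |(k₂ : ℝ) * ε₁ + σ * k₁ * ε₂ - w g k₂ * I| ≤ w g k₂ / 2 := by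
      rw [← hmain]
      have e1 := D₁.err S
      have e2 := D₂.err S
      have h1 : (k₂ : ℝ) * ε₁ + σ * k₁ * ε₂ - (k₂ * (c₁ * w g k₁) + σ * k₁ * (c₂ * w g k₂)) =
          k₂ * (ε₁ - c₁ * w g k₁) + σ * k₁ * (ε₂ - c₂ * w g k₂) := by ring
      rw [h1]
      refine (abs_add_le _ _).trans ?_
      rw [abs_mul, abs_mul, abs_mul, hσa, Nat.abs_cast, Nat.abs_cast, one_mul]
      have h2 : (k₂ : ℝ) * |ε₁ - c₁ * w g k₁| ≤ m * (2 * (m ^ 2 * w g k₁ ^ 2)) :=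
        mul_le_mul hk2m e1 (abs_nonneg _) (by linarith)
      have h3 : (k₁ : ℝ) * |ε₂ - c₂ * w g k₂| ≤ m * (2 * (m ^ 2 * w g k₁ ^ 2)) := by
        apply mul_le_mul hk1m _ (abs_nonneg _) (by linarith)
        refine e2.trans ?_
        have : w g k₂ ^ 2 ≤ w g k₁ ^ 2 := pow_le_pow_left₀ hw2.le (w_anti hg h12.le) 2
        have hm2 : (0 : ℝ) ≤ (m : ℝ) ^ 2 := by positivity
        nlinarith
      have h4 : w g k₁ ≤ w g δ * w g r := w_le_mul hg (by omega)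
      have h5 : w g k₁ ^ 2 ≤ w g k₂ * w g r := by
        rw [hw12, sq, mul_assoc]
        exact mul_le_mul_of_nonneg_left h4 hw1.le
      have h6 := S.wr (p := 3) (by norm_num)
      have h7 : (m : ℝ) * (2 * (m ^ 2 * w g k₁ ^ 2)) ≤ 2 * w g k₂ * ((m : ℝ) ^ 3 * w g r) := by
        have h8 : (m : ℝ) * (2 * (m ^ 2 * w g k₁ ^ 2)) = 2 * (m : ℝ) ^ 3 * w g k₁ ^ 2 := by ring
        rw [h8]
        have h9 : 2 * (m : ℝ) ^ 3 * w g k₁ ^ 2 ≤ 2 * (m : ℝ) ^ 3 * (w g k₂ * w g r) :=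
          mul_le_mul_of_nonneg_left h5 (by positivity)
        linarith [h9]
      have h8 : 2 * w g k₂ * ((m : ℝ) ^ 3 * w g r) ≤ 2 * w g k₂ * (1 / 2 ^ 20) :=
        mul_le_mul_of_nonneg_left h6 (by linarith)
      have h9 : 4 * w g k₂ * (1 / 2 ^ 20) ≤ w g k₂ / 2 := by
        norm_num
        linarith
      linarith
    have h1 : w g k₂ ≤ |w g k₂ * (I : ℝ)| := by
      rw [abs_mul, abs_of_pos hw2]
      nlinarith
    have h2 : |w g k₂ * (I : ℝ)| ≤ |(k₂ : ℝ) * ε₁ + σ * k₁ * ε₂ - w g k₂ * I| +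
        |(k₂ : ℝ) * ε₁ + σ * k₁ * ε₂| := by
      have := abs_sub_abs_le_abs_sub (w g k₂ * (I : ℝ)) ((k₂ : ℝ) * ε₁ + σ * k₁ * ε₂)
      rw [abs_sub_comm] at this
      linarith
    linarith

/-- Two numbers near powers with proportional logarithms. -/
lemma two_terms {g m r k₁ k₂ : ℕ} {c₁ c₂ : ℤ} {ε₁ ε₂ : ℝ} (S : Sz g m r)
    (D₁ : Dat g m k₁ c₁ ε₁) (D₂ : Dat g m k₂ c₂ ε₂) (hk : 16 * r ^ 2 ≤ k₁) (h12 : k₁ < k₂)
    (h : k₂ * ε₁ = k₁ * ε₂) : ε₁ = 0 ∧ ε₂ = 0 := by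
  have hk20 : (0 : ℝ) < k₂ := by exact_mod_cast D₂.pos
  have hk10 : (0 : ℝ) < k₁ := by exact_mod_cast D₁.pos
  by_cases hc : c₁ = 0
  · have h1 := D₁.ε_zero hc
    refine ⟨h1, ?_⟩
    rw [h1, mul_zero] at h
    rcases mul_eq_zero.1 h.symm with h2 | h2
    · exact absurd h2 hk10.ne'
    · exact h2
  · exfalso
    obtain ⟨h1, h2⟩ := T_bound S D₁ D₂ hk h12 hc (-1) (Or.inr rfl)
    have h3 : |(k₂ : ℝ) * ε₁ + ((-1 : ℤ) : ℝ) * k₁ * ε₂| = 0 := by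
      rw [abs_eq_zero, h]; push_cast; ring
    rw [h3] at h1 h2
    have hw1 := w_pos S.hg k₁
    have hw2 := w_pos S.hg k₂
    rcases Nat.lt_or_ge k₂ (k₁ + r) with hlt | hge
    · have := h2 hlt; linarith
    · have := h1 hge; linarith

end Pool.Agent.K4H73.NP
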