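import Mathlib
import Pool.Agent.K4H73.NP.Core

/-!
# Matrices with one entry whose logarithm is an exact multiple of `log g`
-/

set_option autoImplicit false

namespace Pool.Agent.K4H73.NP

/-- `κ L · (n₃ L + ε₃) = (n₁ L + ε₁) (n₂ L + ε₂)` with `κ n₃ = n₁ n₂` is only possible if all `ε` vanish,
or `n₁ = n₂` and `c₂ = - c₁`. -/
lemma gamma {g m r n₁ n₂ n₃ : ℕ} {c₁ c₂ c₃ : ℤ} {ε₁ ε₂ ε₃ κ L : ℝ} (S : Sz g m r)
    (D₁ : Dat g m n₁ c₁ ε₁) (D₂ : Dat g m n₂ c₂ ε₂) (D₃ : Dat g m n₃ c₃ ε₃)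
    (hL : 1 / 2 ≤ L) (hκ : 0 < κ) (hκm : κ ≤ m)
    (hn : 16 * r ^ 2 ≤ n₁) (h12 : n₁ ≤ n₂) (h23 : n₂ < n₃)
    (hsep : n₂ < n₁ + r → n₂ + r ≤ n₃)
    (hκn : κ * n₃ = n₁ * n₂)
    (heq : κ * L * ε₃ = L * (n₂ * ε₁ + n₁ * ε₂) + ε₁ * ε₂) :
    (ε₁ = 0 ∧ ε₂ = 0 ∧ ε₃ = 0) ∨ (n₁ = n₂ ∧ c₂ = -c₁ ∧ c₁ ≠ 0) := by
  have hg := S.hg
  have hm := S.m1
  have hr20 := S.r20
  have hkb := S.k_big hn
  have hL0 : 0 < L := by linarith
  have hn10 : (0 : ℝ) < n₁ := by exact_mod_cast D₁.pos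
  have hn20 : (0 : ℝ) < n₂ := by exact_mod_cast D₂.pos
  have hn30 : (0 : ℝ) < n₃ := by exact_mod_cast D₃.pos
  by_cases hc1 : c₁ = 0
  · left
    have h1 := D₁.ε_zero hc1
    rw [h1] at heq
    have h2 : κ * ε₃ = n₁ * ε₂ := by
      have : L * (κ * ε₃) = L * (n₁ * ε₂) := by linarith
      exact mul_left_cancel₀ hL0.ne' this
    have h3 : (n₃ : ℝ) * ε₂ = n₂ * ε₃ := by
      have : (n₁ : ℝ) * (n₃ * ε₂) = n₁ * (n₂ * ε₃) := by
        calc (n₁ : ℝ) * (n₃ * ε₂) = n₃ * (n₁ * ε₂) := by ring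
          _ = n₃ * (κ * ε₃) := by rw [h2]
          _ = (κ * n₃) * ε₃ := by ring
          _ = n₁ * (n₂ * ε₃) := by rw [hκn]; ring
      exact mul_left_cancel₀ hn10.ne' this
    have h4 := two_terms S D₂ D₃ (hn.trans h12) h23 h3
    exact ⟨h1, h4.1, h4.2⟩
  by_cases hc2 : c₂ = 0
  · left
    have h1 := D₂.ε_zero hc2
    rw [h1] at heq
    have h2 : κ * ε₃ = n₂ * ε₁ := by
      have : L * (κ * ε₃) = L * (n₂ * ε₁) := by linarith
      exact mul_left_cancel₀ hL0.ne' this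
    have h3 : (n₃ : ℝ) * ε₁ = n₁ * ε₃ := by
      have : (n₂ : ℝ) * (n₃ * ε₁) = n₂ * (n₁ * ε₃) := by
        calc (n₂ : ℝ) * (n₃ * ε₁) = n₃ * (n₂ * ε₁) := by ring
          _ = n₃ * (κ * ε₃) := by rw [h2]
          _ = (κ * n₃) * ε₃ := by ring
          _ = n₂ * (n₁ * ε₃) := by rw [hκn]; ring
      exact mul_left_cancel₀ hn20.ne' this
    have h4 := two_terms S D₁ D₃ hn (by omega) h3
    exact ⟨h4.1, h1, h4.2⟩
  by_cases hex : n₁ = n₂ ∧ c₂ = -c₁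
  · right
    exact ⟨hex.1, hex.2, hc1⟩
  exfalso
  have hw1 := w_pos hg n₁
  have hw2 := w_pos hg n₂
  have hw3 := w_pos hg n₃
  have hwr := w_pos hg r
  have e1 := D₁.ε_le S (by omega)
  have e2 := D₂.ε_le S (by omega)
  have e3 := D₃.ε_le S (by omega)
  -- the sum is small
  have hS : |(n₂ : ℝ) * ε₁ + n₁ * ε₂| ≤ 2 * m ^ 2 * w g n₃ + 8 * m ^ 2 * (w g n₁ * w g n₂) := by
    have h1 : L * (n₂ * ε₁ + n₁ * ε₂) = κ * L * ε₃ - ε₁ * ε₂ := by linarith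
    have h2 : L * |(n₂ : ℝ) * ε₁ + n₁ * ε₂| ≤ L * (κ * |ε₃|) + |ε₁| * |ε₂| := by
      calc L * |(n₂ : ℝ) * ε₁ + n₁ * ε₂| = |L * (n₂ * ε₁ + n₁ * ε₂)| := by
            rw [abs_mul, abs_of_pos hL0]
        _ = |κ * L * ε₃ - ε₁ * ε₂| := by rw [h1]
        _ ≤ |κ * L * ε₃| + |ε₁ * ε₂| := abs_sub _ _
        _ = L * (κ * |ε₃|) + |ε₁| * |ε₂| := by
            rw [abs_mul, abs_mul, abs_mul, abs_of_pos hκ, abs_of_pos hL0]; ring
    have h3 : κ * |ε₃| ≤ m * (2 * m * w g n₃) := mul_le_mul hκm e3 (abs_nonneg _) (by linarith)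
    have h4 : |ε₁| * |ε₂| ≤ (2 * m * w g n₁) * (2 * m * w g n₂) :=
      mul_le_mul e1 e2 (abs_nonneg _) (by positivity)
    have h5 : (2 * m * w g n₁) * (2 * m * w g n₂) ≤ L * (8 * m ^ 2 * (w g n₁ * w g n₂)) := by
      have : 0 ≤ m ^ 2 * (w g n₁ * w g n₂) := by positivity
      nlinarith
    have h6 : L * |(n₂ : ℝ) * ε₁ + n₁ * ε₂| ≤
        L * (2 * m ^ 2 * w g n₃ + 8 * m ^ 2 * (w g n₁ * w g n₂)) := by
      have h7 : L * (κ * |ε₃|) ≤ L * (m * (2 * m * w g n₃)) :=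
        mul_le_mul_of_nonneg_left h3 hL0.le
      nlinarith
    exact le_of_mul_le_mul_left h6 hL0
  have hW2 := S.wr (p := 2) (by norm_num)
  rcases Nat.lt_or_ge n₂ (n₁ + r) with hlt | hge
  · -- near
    have h3 : w g n₃ ≤ w g n₂ * w g r := w_le_mul hg (hsep hlt)
    have h1r : w g n₁ ≤ w g r := w_anti hg (by omega)
    have hup : |(n₂ : ℝ) * ε₁ + n₁ * ε₂| ≤ w g n₂ / 1000 := by
      refine hS.trans ?_
      have h4 : (m : ℝ) ^ 2 * w g n₃ ≤ w g n₂ * (m ^ 2 * w g r) := by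
        have := mul_le_mul_of_nonneg_left h3 (show (0 : ℝ) ≤ (m : ℝ) ^ 2 by positivity)
        linarith
      have h5 : (m : ℝ) ^ 2 * (w g n₁ * w g n₂) ≤ w g n₂ * (m ^ 2 * w g r) := by
        have := mul_le_mul_of_nonneg_left h1r (show (0 : ℝ) ≤ (m : ℝ) ^ 2 * w g n₂ by positivity)
        linarith
      have h6 : w g n₂ * ((m : ℝ) ^ 2 * w g r) ≤ w g n₂ * (1 / 2 ^ 20) :=
        mul_le_mul_of_nonneg_left hW2 hw2.le
      have h7 : 10 * (w g n₂ * (1 / 2 ^ 20)) ≤ w g n₂ / 1000 := by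
        norm_num; linarith
      linarith
    rcases Nat.lt_or_ge n₁ n₂ with h12' | h12'
    · have h4 := (T_bound S D₁ D₂ hn h12' hc1 1 (Or.inl rfl)).2 hlt
      simp only [Int.cast_one, one_mul] at h4
      linarith
    · have hnn : n₁ = n₂ := le_antisymm h12 h12'
      subst hnn
      have hcc : c₁ + c₂ ≠ 0 := fun h => hex ⟨rfl, by omega⟩
      have h4 : (1 : ℝ) ≤ |(c₁ : ℝ) + c₂| := by
        rw [← Int.cast_add, ← Int.cast_abs]; exact_mod_cast Int.one_le_abs hcc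
      have f1 := D₁.err S
      have f2 := D₂.err S
      have h5 : |((c₁ : ℝ) + c₂) * w g n₁| ≤ |ε₁ + ε₂| + 4 * (m ^ 2 * w g n₁ ^ 2) := by
        have h6 : ((c₁ : ℝ) + c₂) * w g n₁ = (ε₁ + ε₂) - (ε₁ - c₁ * w g n₁) - (ε₂ - c₂ * w g n₁) := by
          ring
        rw [h6]
        have h7 := abs_sub (ε₁ + ε₂ - (ε₁ - c₁ * w g n₁)) (ε₂ - c₂ * w g n₁)
        have h8 := abs_sub (ε₁ + ε₂) (ε₁ - c₁ * w g n₁)
        linarith
      have h6 : w g n₁ ≤ |((c₁ : ℝ) + c₂) * w g n₁| := by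
        rw [abs_mul, abs_of_pos hw1]; nlinarith
      have h7 : (m : ℝ) ^ 2 * w g n₁ ^ 2 ≤ w g n₁ * (1 / 2 ^ 20) := by
        have h8 : (m : ℝ) ^ 2 * w g n₁ ^ 2 ≤ w g n₁ * (m ^ 2 * w g r) := by
          have := mul_le_mul_of_nonneg_left h1r (show (0 : ℝ) ≤ (m : ℝ) ^ 2 * w g n₁ by positivity)
          nlinarith
        exact h8.trans (mul_le_mul_of_nonneg_left hW2 hw1.le)
      have h8 : |ε₁ + ε₂| ≤ |(n₁ : ℝ) * ε₁ + n₁ * ε₂| := by
        rw [← mul_add, abs_mul, Nat.abs_cast]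
        have : (1 : ℝ) ≤ n₁ := by exact_mod_cast D₁.pos
        nlinarith [abs_nonneg (ε₁ + ε₂)]
      have h9 : 4 * (w g n₁ * (1 / 2 ^ 20)) ≤ w g n₁ / 1000 := by norm_num; linarith
      linarith
  · -- far
    have h4 := (T_bound S D₁ D₂ hn (by omega) hc1 1 (Or.inl rfl)).1 hge
    simp only [Int.cast_one, one_mul] at h4
    have h2 : w g n₂ ≤ w g n₁ * w g r := w_le_mul hg hge
    have h3 : w g n₃ ≤ w g n₁ * w g r := w_le_mul hg (by omega)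
    have h1r : w g n₂ ≤ w g r := w_anti hg (by omega)
    have hup : |(n₂ : ℝ) * ε₁ + n₁ * ε₂| ≤ w g n₁ / 1000 := by
      refine hS.trans ?_
      have h4 : (m : ℝ) ^ 2 * w g n₃ ≤ w g n₁ * (m ^ 2 * w g r) := by
        have := mul_le_mul_of_nonneg_left h3 (show (0 : ℝ) ≤ (m : ℝ) ^ 2 by positivity)
        linarith
      have h5 : (m : ℝ) ^ 2 * (w g n₁ * w g n₂) ≤ w g n₁ * (m ^ 2 * w g r) := by
        have := mul_le_mul_of_nonneg_left h1r (show (0 : ℝ) ≤ (m : ℝ) ^ 2 * w g n₁ by positivity)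
        linarith
      have h6 : w g n₁ * ((m : ℝ) ^ 2 * w g r) ≤ w g n₁ * (1 / 2 ^ 20) :=
        mul_le_mul_of_nonneg_left hW2 hw1.le
      have h7 : 10 * (w g n₁ * (1 / 2 ^ 20)) ≤ w g n₁ / 1000 := by
        norm_num; linarith
      linarith
    linarith

/-- bounds for the right hand side in the exceptional case `n₁ = n₂ = n`, `c₂ = - c₁` -/
lemma so_bounds {g m r n : ℕ} {c : ℤ} {ε₁ ε₂ L : ℝ} (S : Sz g m r)
    (D₁ : Dat g m n c ε₁) (D₂ : Dat g m n (-c) ε₂) (hL : 1 / 2 ≤ L) (hn : r ≤ n) :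
    L * (n * (ε₁ + ε₂)) + ε₁ * ε₂ ≤ -(n * L * (c * w g n) ^ 2) ∧
    |L * (n * (ε₁ + ε₂)) + ε₁ * ε₂ + (c * w g n) ^ 2 * (n * L + 1)| ≤
      (c * w g n) ^ 2 * (2 * m * L + 8) * (m * w g n) := by
  have hg := S.hg
  have hL0 : 0 < L := by linarith
  have hm := S.m1
  have hw := w_pos hg n
  have hz1 := D₁.z_small S hn
  have hzm := D₁.z_le S
  have x1 := D₁.ex
  have x2 := D₂.ex
  have hn0 : (0 : ℝ) ≤ n := Nat.cast_nonneg _
  have hnm : (n : ℝ) ≤ m := D₁.k_le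
  have hb1 := D₁.near hg
  have hb2 := D₂.near hg
  set z : ℝ := (c : ℝ) * w g n with hz
  have hcz : ((-c : ℤ) : ℝ) * w g n = -z := by rw [hz]; push_cast; ring
  rw [hcz] at x2 hb2
  have hzs : |z| ≤ 1 / 2 ^ 20 := hz1
  have hzlt := abs_le.1 hzs
  have hp1 : 0 < 1 + z := by
    have : (-(1 / 2 ^ 20) : ℝ) ≤ z := hzlt.1
    norm_num at this ⊢; linarith
  have hp2 : 0 < 1 + -z := by
    have : z ≤ (1 / 2 ^ 20 : ℝ) := hzlt.2
    norm_num at this ⊢; linarith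
  have hsum : ε₁ + ε₂ = Real.log (1 - z ^ 2) := by
    rw [x1, x2, ← Real.log_mul hp1.ne' hp2.ne']
    congr 1; ring
  have hz2 : z ^ 2 ≤ 1 / 2 := by
    have : z ^ 2 = |z| * |z| := by rw [← sq, sq_abs]
    rw [this]
    have h0 := abs_nonneg z
    have h3 : |z| ≤ 1 / 2 := hzs.trans (by norm_num)
    nlinarith
  have hp3 : 0 < 1 - z ^ 2 := by linarith
  have hs_up : ε₁ + ε₂ ≤ -z ^ 2 := by
    rw [hsum]
    have := Real.log_le_sub_one_of_pos hp3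
    linarith
  have hs_ab : |ε₁ + ε₂ + z ^ 2| ≤ 2 * (z ^ 2) ^ 2 := by
    have h1 := log_bound (z := -z ^ 2) (by rw [abs_neg, abs_of_nonneg (sq_nonneg z)]; exact hz2)
    rw [hsum]
    have e : 1 + -z ^ 2 = 1 - z ^ 2 := by ring
    rw [e, sub_neg_eq_add, neg_sq] at h1
    exact h1
  have hprod : ε₁ * ε₂ ≤ 0 := by
    rcases le_total 0 z with h | h
    · have a1 : 0 ≤ ε₁ := by rw [x1]; exact Real.log_nonneg (by linarith)
      have a2 : ε₂ ≤ 0 := by rw [x2]; exact Real.log_nonpos hp2.le (by linarith)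
      exact mul_nonpos_of_nonneg_of_nonpos a1 a2
    · have a1 : ε₁ ≤ 0 := by rw [x1]; exact Real.log_nonpos hp1.le (by linarith)
      have a2 : 0 ≤ ε₂ := by rw [x2]; exact Real.log_nonneg (by linarith)
      exact mul_nonpos_of_nonpos_of_nonneg a1 a2
  have hprod2 : |ε₁ * ε₂ + z ^ 2| ≤ 8 * (z ^ 2 * |z|) := by
    have e : ε₁ * ε₂ + z ^ 2 = z * (ε₂ - -z) - z * (ε₁ - z) + (ε₁ - z) * (ε₂ - -z) := by ring
    rw [e]
    have h1 : |z * (ε₂ - -z)| ≤ |z| * (2 * z ^ 2) := by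
      rw [abs_mul]
      refine mul_le_mul_of_nonneg_left ?_ (abs_nonneg z)
      simpa using hb2
    have h2 : |z * (ε₁ - z)| ≤ |z| * (2 * z ^ 2) := by
      rw [abs_mul]
      exact mul_le_mul_of_nonneg_left hb1 (abs_nonneg z)
    have h3 : |(ε₁ - z) * (ε₂ - -z)| ≤ (2 * z ^ 2) * (2 * z ^ 2) := by
      rw [abs_mul]
      exact mul_le_mul hb1 (by simpa using hb2) (abs_nonneg _) (by positivity)
    have h4 : |z * (ε₂ - -z) - z * (ε₁ - z) + (ε₁ - z) * (ε₂ - -z)| ≤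
        |z * (ε₂ - -z)| + |z * (ε₁ - z)| + |(ε₁ - z) * (ε₂ - -z)| := by
      refine (abs_add_le _ _).trans ?_
      have := abs_sub (z * (ε₂ - -z)) (z * (ε₁ - z))
      linarith
    have h5 : (2 * z ^ 2) * (2 * z ^ 2) ≤ 4 * (z ^ 2 * |z|) := by
      have h6 : z ^ 2 = |z| * |z| := by rw [← sq, sq_abs]
      have h7 : |z| ≤ 1 := hzs.trans (by norm_num)
      have h8 : z ^ 2 ≤ |z| := by rw [h6]; nlinarith [abs_nonneg z]
      have h9 : 0 ≤ z ^ 2 := sq_nonneg z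
      nlinarith
    linarith
  constructor
  · have h1 : L * (n * (ε₁ + ε₂)) ≤ L * (n * (-z ^ 2)) := by
      apply mul_le_mul_of_nonneg_left _ hL0.le
      exact mul_le_mul_of_nonneg_left hs_up hn0
    linarith
  · have e : L * (n * (ε₁ + ε₂)) + ε₁ * ε₂ + z ^ 2 * (n * L + 1) =
        L * n * (ε₁ + ε₂ + z ^ 2) + (ε₁ * ε₂ + z ^ 2) := by ring
    rw [e]
    refine (abs_add_le _ _).trans ?_
    have h1 : |L * n * (ε₁ + ε₂ + z ^ 2)| ≤ L * m * (2 * (z ^ 2 * |z|)) := by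
      rw [abs_mul, abs_of_nonneg (by positivity)]
      refine mul_le_mul (mul_le_mul_of_nonneg_left hnm hL0.le) (hs_ab.trans ?_) (abs_nonneg _)
        (by positivity)
      have h6 : z ^ 2 = |z| * |z| := by rw [← sq, sq_abs]
      have h7 : |z| ≤ 1 := hzs.trans (by norm_num)
      have h8 : z ^ 2 ≤ |z| := by rw [h6]; nlinarith [abs_nonneg z]
      have h9 : 0 ≤ z ^ 2 := sq_nonneg z
      nlinarith
    have h2 : z ^ 2 * |z| ≤ z ^ 2 * (m * w g n) := mul_le_mul_of_nonneg_left hzm (sq_nonneg z)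
    have h3 : L * m * (2 * (z ^ 2 * |z|)) + 8 * (z ^ 2 * |z|) =
        (z ^ 2 * |z|) * (2 * m * L + 8) := by ring
    have h4 : (z ^ 2 * |z|) * (2 * m * L + 8) ≤ (z ^ 2 * (m * w g n)) * (2 * m * L + 8) :=
      mul_le_mul_of_nonneg_right h2 (by positivity)
    linarith

/-- the exceptional case is impossible if `n₃` is much larger than `2 n` -/
lemma so_far {g m r n n₃ : ℕ} {c c₃ : ℤ} {ε₁ ε₂ ε₃ κ L : ℝ} (S : Sz g m r)
    (D₁ : Dat g m n c ε₁) (D₂ : Dat g m n (-c) ε₂) (D₃ : Dat g m n₃ c₃ ε₃) (hc : c ≠ 0)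
    (hL : 1 / 2 ≤ L) (hκ : 0 < κ) (hκm : κ ≤ m) (hn : r ≤ n) (h3 : 2 * n + r ≤ n₃)
    (heq : κ * L * ε₃ = L * (n * (ε₁ + ε₂)) + ε₁ * ε₂) : False := by
  have hg := S.hg
  have hL0 : 0 < L := by linarith
  have hm := S.m1
  have h1 := (so_bounds S D₁ D₂ hL hn).1
  rw [← heq] at h1
  have e3 := D₃.ε_le S (by omega)
  have hw := w_pos hg n
  have hw3 := w_pos hg n₃
  have hc1 : (1 : ℝ) ≤ (c : ℝ) ^ 2 := by
    have : (1 : ℤ) ≤ c ^ 2 := by
      have := Int.one_le_abs hc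
      nlinarith [sq_abs c]
    exact_mod_cast this
  have hn1 : (1 : ℝ) ≤ n := by exact_mod_cast D₁.pos
  have h2 : L * (w g n * w g n) ≤ n * L * (c * w g n) ^ 2 := by
    have e : (n : ℝ) * L * (c * w g n) ^ 2 = L * (w g n * w g n) * (n * (c : ℝ) ^ 2) := by ring
    rw [e]
    have : (1 : ℝ) ≤ n * (c : ℝ) ^ 2 := one_le_mul_of_one_le_of_one_le hn1 hc1
    have h0 : 0 < L * (w g n * w g n) := by positivity
    nlinarith
  have h4 : w g n₃ ≤ w g n * w g n * w g r := by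
    have := w_le_mul hg (a := 2 * n) (b := r) (c := n₃) h3
    have h5 : w g (2 * n) = w g n * w g n := by rw [two_mul, w_add]
    rwa [h5] at this
  have h5 : -(κ * L * ε₃) ≤ L * (2 * m ^ 2 * w g n₃) := by
    have h6 : -(κ * L * ε₃) ≤ |κ * L * ε₃| := neg_le_abs _
    refine h6.trans ?_
    rw [abs_mul, abs_mul, abs_of_pos hκ, abs_of_pos hL0]
    have h7 : κ * |ε₃| ≤ m * (2 * m * w g n₃) := mul_le_mul hκm e3 (abs_nonneg _) (by linarith)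
    nlinarith
  have h6 : 2 * (m : ℝ) ^ 2 * w g n₃ < w g n * w g n := by
    have h7 := S.wr (p := 2) (by norm_num)
    have h8 : (m : ℝ) ^ 2 * w g n₃ ≤ w g n * w g n * (m ^ 2 * w g r) := by
      have := mul_le_mul_of_nonneg_left h4 (show (0 : ℝ) ≤ (m : ℝ) ^ 2 by positivity)
      linarith
    have h9 : w g n * w g n * ((m : ℝ) ^ 2 * w g r) ≤ w g n * w g n * (1 / 2 ^ 20) :=
      mul_le_mul_of_nonneg_left h7 (by positivity)
    have h10 : 0 < w g n * w g n := by positivity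
    have h11 : 2 * (w g n * w g n * (1 / 2 ^ 20)) < w g n * w g n := by
      norm_num; linarith
    linarith
  nlinarith

end Pool.Agent.K4H73.NP
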