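import Mathlib
import Pool.Agent.K4H73.NP.Gamma

/-!
# The exceptional case for four numbers near powers
-/

set_option autoImplicit false

namespace Pool.Agent.K4H73.NP

lemma so_int {g m r k n n₃ : ℕ} {c c₃ : ℤ} {ε₁ ε₂ ε₃ L : ℝ} (S : Sz g m r)
    (D₁ : Dat g m n c ε₁) (D₂ : Dat g m n (-c) ε₂) (D₃ : Dat g m n₃ c₃ ε₃) (hc : c ≠ 0)
    (hL : 1 / 2 ≤ L) (hLg : L * w g 1 ≤ 1) (hk : 16 * r ^ 2 ≤ k) (hkn : k < n)
    (hkn3 : k * n₃ = n * n)
    (heq : k * L * ε₃ = L * (n * (ε₁ + ε₂)) + ε₁ * ε₂) : False := by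
  have hg := S.hg
  have hL0 : 0 < L := by linarith
  have hm := S.m1
  have hr20 := S.r20
  have hkb := S.k_big hk
  have hk0 : 0 < k := by omega
  have hk1 : (1 : ℝ) ≤ k := by exact_mod_cast hk0
  have hnm : n ≤ m := D₁.le
  have hkm : (k : ℝ) ≤ m := by exact_mod_cast (hkn.le.trans hnm)
  have hz : (k : ℤ) * (n₃ - 4 * n + 4 * k) = (n - 2 * k) ^ 2 := by
    have : (k : ℤ) * n₃ = n * n := by exact_mod_cast hkn3
    linear_combination this
  have hu : n ≠ 2 * k → (k : ℤ) ≤ ((n : ℤ) - 2 * k) ^ 2 := by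
    intro hne
    have h1 : (0 : ℤ) < ((n : ℤ) - 2 * k) ^ 2 := by
      have : ((n : ℤ) - 2 * k) ≠ 0 := by omega
      positivity
    rw [← hz] at h1
    have hk0' : (0 : ℤ) < k := by exact_mod_cast hk0
    have h2 : 0 < (n₃ : ℤ) - 4 * n + 4 * k := (mul_pos_iff_of_pos_left hk0').1 h1
    rw [← hz]
    nlinarith
  obtain ⟨sb1, sb2⟩ := so_bounds S D₁ D₂ hL (by omega : r ≤ n)
  rw [← heq] at sb1 sb2
  have hw := w_pos hg n
  have hw3 := w_pos hg n₃
  have hwr := w_pos hg r
  have hc1 : (1 : ℝ) ≤ (c : ℝ) ^ 2 := by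
    have : (1 : ℤ) ≤ c ^ 2 := by
      have := Int.one_le_abs hc
      nlinarith [sq_abs c]
    exact_mod_cast this
  have hcm : |(c : ℝ)| ≤ m := D₁.c_le
  have hcm2 : (c : ℝ) ^ 2 ≤ (m : ℝ) ^ 2 := by
    rw [← sq_abs]; exact pow_le_pow_left₀ (abs_nonneg _) hcm 2
  have hn1 : (1 : ℝ) ≤ n := by exact_mod_cast D₁.pos
  have hnmr : (n : ℝ) ≤ m := D₁.k_le
  have hwnr : w g n ≤ w g r := w_anti hg (by omega)
  have hW1 := S.wr (p := 1) (by norm_num)
  have hW3 := S.wr (p := 3) (by norm_num)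
  have hW4 := S.wr (p := 4) (by norm_num)
  have hmw : (m : ℝ) * w g n ≤ 1 / 2 ^ 20 := by
    rw [pow_one] at hW1
    exact (mul_le_mul_of_nonneg_left hwnr (by linarith)).trans hW1
  have hwnn : w g n * w g n = w g (2 * n) := by rw [two_mul, w_add]
  rcases lt_trichotomy n₃ (2 * n) with hlt | heq3 | hgt
  · -- n₃ < 2 n
    have hn2k : n < 2 * k := by
      by_contra hcon
      push Not at hcon
      have h1 : k * n₃ < k * (2 * n) := Nat.mul_lt_mul_of_pos_left hlt hk0
      have h2 : k * (2 * n) ≤ n * n := by nlinarith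
      omega
    have h1 := hu (by omega)
    have h2 : 4 * (r : ℤ) ≤ 2 * k - n := by
      by_contra hcon
      push Not at hcon
      have h3 : (0 : ℤ) < 2 * k - n := by omega
      have h4 : ((n : ℤ) - 2 * k) ^ 2 < 16 * (r : ℤ) ^ 2 := by nlinarith
      have h5 : (16 : ℤ) * (r : ℤ) ^ 2 ≤ k := by exact_mod_cast hk
      linarith
    have h3 : n₃ + r ≤ 2 * n := by
      have h4 : (k : ℤ) * (2 * n - n₃) = n * (2 * k - n) := by
        have : (k : ℤ) * n₃ = n * n := by exact_mod_cast hkn3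
        linear_combination -this
      have hk0' : (0 : ℤ) < k := by exact_mod_cast hk0
      have hkn' : (k : ℤ) < n := by exact_mod_cast hkn
      have h5 : (k : ℤ) * (2 * k - n) ≤ k * (2 * n - n₃) := by
        rw [h4]
        have : (0 : ℤ) ≤ 2 * k - n := by omega
        nlinarith
      have h6 : (2 * k - n : ℤ) ≤ 2 * n - n₃ := le_of_mul_le_mul_left h5 hk0'
      omega
    have h4 : w g n * w g n ≤ w g n₃ * w g r := by
      rw [hwnn]; exact w_le_mul hg h3
    by_cases hc3 : c₃ = 0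
    · rw [D₃.ε_zero hc3, mul_zero] at sb1
      have : 0 < (n : ℝ) * L * (c * w g n) ^ 2 := by
        have : 0 < ((c : ℝ) * w g n) ^ 2 := by
          rw [mul_pow]
          have : 0 < w g n ^ 2 := by positivity
          nlinarith
        positivity
      linarith
    · have h5 := D₃.ε_ge S (by
        by_contra hcon
        push Not at hcon
        -- n₃ ≥ n as k n₃ = n n, k < n
        have : k * n₃ < n * n := by nlinarith
        omega) hc3
      have h6 : L * (w g n₃ / 2) ≤ |k * L * ε₃| := by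
        rw [abs_mul, abs_of_nonneg (by positivity)]
        have : L * |ε₃| ≤ k * L * |ε₃| := by
          have : 0 ≤ L * |ε₃| := by positivity
          nlinarith
        have h7 := mul_le_mul_of_nonneg_left h5 hL0.le
        linarith
      have h7 : |k * L * ε₃| ≤ (c * w g n) ^ 2 * (n * L + 1) +
          (c * w g n) ^ 2 * (2 * m * L + 8) * (m * w g n) := by
        have h8 : |k * L * ε₃| ≤ |k * L * ε₃ + (c * w g n) ^ 2 * (n * L + 1)| +
            |(c * w g n) ^ 2 * (n * L + 1)| := by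
          have := abs_sub (k * L * ε₃ + (c * w g n) ^ 2 * (n * L + 1)) ((c * w g n) ^ 2 * (n * L + 1))
          simpa using this
        have h9 : |(c * w g n) ^ 2 * (n * L + 1)| = (c * w g n) ^ 2 * (n * L + 1) :=
          abs_of_nonneg (by positivity)
        linarith
      have h8 : (c * w g n) ^ 2 ≤ (m : ℝ) ^ 2 * (w g n₃ * w g r) := by
        rw [mul_pow, sq (w g n)]
        exact mul_le_mul hcm2 h4 (by positivity) (by positivity)
      have h9 : (n * L + 1) + (2 * m * L + 8) * (m * w g n) ≤ L * (21 * m) := by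
        have h10 : (2 * m * L + 8) * (m * w g n) ≤ (2 * m * L + 8) * 1 := by
          refine mul_le_mul_of_nonneg_left (hmw.trans (by norm_num)) (by positivity)
        have h11 : (n : ℝ) * L ≤ m * L := mul_le_mul_of_nonneg_right hnmr hL0.le
        have h12 : (1 : ℝ) ≤ 2 * L := by linarith
        have h13 : 2 * L ≤ 2 * L * m := by nlinarith
        linarith
      have h10 : (c * w g n) ^ 2 * (n * L + 1) +
          (c * w g n) ^ 2 * (2 * m * L + 8) * (m * w g n) ≤
          ((m : ℝ) ^ 2 * (w g n₃ * w g r)) * (L * (21 * m)) := by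
        have h11 : (c * w g n) ^ 2 * (n * L + 1) +
          (c * w g n) ^ 2 * (2 * m * L + 8) * (m * w g n) =
          (c * w g n) ^ 2 * ((n * L + 1) + (2 * m * L + 8) * (m * w g n)) := by ring
        rw [h11]
        exact mul_le_mul h8 h9 (by positivity) (by positivity)
      have h11 : ((m : ℝ) ^ 2 * (w g n₃ * w g r)) * (L * (21 * m)) =
          21 * L * w g n₃ * ((m : ℝ) ^ 3 * w g r) := by ring
      have h12 : 21 * L * w g n₃ * ((m : ℝ) ^ 3 * w g r) ≤ 21 * L * w g n₃ * (1 / 2 ^ 20) :=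
        mul_le_mul_of_nonneg_left hW3 (by positivity)
      have h13 : 21 * L * w g n₃ * (1 / 2 ^ 20) < L * (w g n₃ / 2) := by
        have : 0 < L * w g n₃ := by positivity
        norm_num
        nlinarith
      linarith
  · -- n₃ = 2 n, n = 2 k
    have hn2k : n = 2 * k := by
      rw [heq3] at hkn3
      have h1 : (2 * k) * n = n * n := by rw [← hkn3]; ring
      exact (Nat.eq_of_mul_eq_mul_right (by omega) h1).symm
    have hw3e : w g n₃ = w g n * w g n := by rw [heq3, hwnn]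
    have e3 := D₃.err S
    have hw3r : w g n₃ ≤ w g r := w_anti hg (by omega)
    -- w(n) L ≤ w(r)
    have hLw : L * w g n ≤ w g r := by
      have h1 : w g n ≤ w g 1 * w g r := w_le_mul hg (by omega)
      calc L * w g n ≤ L * (w g 1 * w g r) := mul_le_mul_of_nonneg_left h1 hL0.le
        _ = (L * w g 1) * w g r := by ring
        _ ≤ 1 * w g r := mul_le_mul_of_nonneg_right hLg hwr.le
        _ = w g r := one_mul _
    have hkey : |k * L * (c₃ + 2 * (c : ℝ) ^ 2) + (c : ℝ) ^ 2| ≤ 1 / 1000 := by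
      have h1 : w g n₃ * (k * L * (c₃ + 2 * (c : ℝ) ^ 2) + (c : ℝ) ^ 2) =
          (k * L * ε₃ + (c * w g n) ^ 2 * (n * L + 1)) - k * L * (ε₃ - c₃ * w g n₃) := by
        have hnk : (n : ℝ) = 2 * k := by exact_mod_cast hn2k
        rw [hnk, mul_pow, sq (w g n), ← hw3e]
        ring
      have h2 : w g n₃ * |k * L * (c₃ + 2 * (c : ℝ) ^ 2) + (c : ℝ) ^ 2| ≤
          (c * w g n) ^ 2 * (2 * m * L + 8) * (m * w g n) + m * L * (2 * (m ^ 2 * w g n₃ ^ 2)) := by
        rw [← abs_of_pos hw3, ← abs_mul, abs_of_pos hw3, h1]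
        refine (abs_sub _ _).trans (add_le_add sb2 ?_)
        rw [abs_mul, abs_of_nonneg (by positivity)]
        exact mul_le_mul (mul_le_mul_of_nonneg_right hkm hL0.le) e3 (abs_nonneg _) (by positivity)
      have h3 : (c * w g n) ^ 2 * (2 * m * L + 8) * (m * w g n) ≤
          w g n₃ * (18 * (m ^ 4 * w g r)) := by
        have h4 : (c * w g n) ^ 2 = w g n₃ * (c : ℝ) ^ 2 := by rw [mul_pow, sq (w g n), ← hw3e]; ring
        have h5 : (2 * m * L + 8) ≤ 18 * m * L := by nlinarith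
        have h6 : (c : ℝ) ^ 2 * (2 * m * L + 8) * (m * w g n) ≤ m ^ 2 * (18 * m * L) * (m * w g n) := by
          refine mul_le_mul_of_nonneg_right (mul_le_mul hcm2 h5 (by positivity) (by positivity))
            (by positivity)
        have h7 : (m : ℝ) ^ 2 * (18 * m * L) * (m * w g n) = 18 * (m ^ 4 * (L * w g n)) := by ring
        have h8 : (m : ℝ) ^ 4 * (L * w g n) ≤ m ^ 4 * w g r :=
          mul_le_mul_of_nonneg_left hLw (by positivity)
        rw [h4]
        have h9 : w g n₃ * (c : ℝ) ^ 2 * (2 * m * L + 8) * (m * w g n) =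
            w g n₃ * ((c : ℝ) ^ 2 * (2 * m * L + 8) * (m * w g n)) := by ring
        rw [h9]
        refine mul_le_mul_of_nonneg_left ?_ hw3.le
        linarith
      have h4 : m * L * (2 * ((m : ℝ) ^ 2 * w g n₃ ^ 2)) ≤ w g n₃ * (2 * (m ^ 4 * w g r)) := by
        have h5 : L * w g n₃ ≤ w g r := by
          have : w g n₃ ≤ w g n := w_anti hg (by omega)
          exact (mul_le_mul_of_nonneg_left this hL0.le).trans hLw
        have h6 : m * L * (2 * ((m : ℝ) ^ 2 * w g n₃ ^ 2)) = w g n₃ * (2 * (m ^ 3 * (L * w g n₃))) := by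
          ring
        rw [h6]
        refine mul_le_mul_of_nonneg_left ?_ hw3.le
        have h7 : (m : ℝ) ^ 3 * (L * w g n₃) ≤ m ^ 4 * w g r :=
          mul_le_mul (pow_le_pow_right₀ hm (by norm_num)) h5 (by positivity) (by positivity)
        linarith
      have h5 : w g n₃ * |k * L * (c₃ + 2 * (c : ℝ) ^ 2) + (c : ℝ) ^ 2| ≤
          w g n₃ * (20 * (m ^ 4 * w g r)) := by linarith
      have h6 := le_of_mul_le_mul_left h5 hw3
      refine h6.trans ?_
      have : 20 * ((m : ℝ) ^ 4 * w g r) ≤ 20 * (1 / 2 ^ 20) := by linarith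
      refine this.trans (by norm_num)
    obtain ⟨I, hI⟩ : ∃ I : ℤ, I = c₃ + 2 * c ^ 2 := ⟨_, rfl⟩
    have hIr : (c₃ : ℝ) + 2 * (c : ℝ) ^ 2 = I := by rw [hI]; push_cast; ring
    rw [hIr] at hkey
    by_cases hI0 : I = 0
    · rw [hI0, Int.cast_zero, mul_zero, zero_add, abs_of_nonneg (by positivity)] at hkey
      linarith
    · have h1 : (1 : ℝ) ≤ |(I : ℝ)| := by
        rw [← Int.cast_abs]; exact_mod_cast Int.one_le_abs hI0
      have h2 : k * L ≤ |k * L * (I : ℝ)| := by
        rw [abs_mul, abs_of_nonneg (by positivity)]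
        have : 0 ≤ k * L := by positivity
        nlinarith
      have h3 : |k * L * (I : ℝ)| ≤ |k * L * (I : ℝ) + (c : ℝ) ^ 2| + (c : ℝ) ^ 2 := by
        have := abs_sub (k * L * (I : ℝ) + (c : ℝ) ^ 2) ((c : ℝ) ^ 2)
        rw [abs_of_nonneg (sq_nonneg (c : ℝ))] at this
        simpa using this
      have h4 : (k : ℝ) ≤ 4 * (c : ℝ) ^ 2 := by nlinarith
      have h5 : (k : ℤ) ≤ 4 * |c| ^ 2 := by rw [sq_abs]; exact_mod_cast h4
      have h6 : |c| ^ 3 ≤ (n : ℤ) := D₁.cub
      have hk0' : (0 : ℤ) < k := by exact_mod_cast hk0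
      have h7 : (k : ℤ) ^ 3 ≤ 64 * (n : ℤ) ^ 2 := by
        calc (k : ℤ) ^ 3 ≤ (4 * |c| ^ 2) ^ 3 := pow_le_pow_left₀ hk0'.le h5 3
          _ = 64 * (|c| ^ 3) ^ 2 := by ring
          _ ≤ 64 * (n : ℤ) ^ 2 := by
            have := pow_le_pow_left₀ (show (0 : ℤ) ≤ |c| ^ 3 by positivity) h6 2
            linarith
      have h8 : (n : ℤ) = 2 * k := by exact_mod_cast hn2k
      rw [h8] at h7
      have h9 : (k : ℤ) ^ 2 * k ≤ (k : ℤ) ^ 2 * 256 := by
        calc (k : ℤ) ^ 2 * k = (k : ℤ) ^ 3 := by ring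
          _ ≤ _ := h7
          _ = _ := by ring
      have h10 : (k : ℤ) ≤ 256 := le_of_mul_le_mul_left h9 (by positivity)
      omega
  · -- n₃ > 2 n
    have hn2k : 2 * k < n := by
      by_contra hcon
      push Not at hcon
      have h1 : k * (2 * n) < k * n₃ := Nat.mul_lt_mul_of_pos_left hgt hk0
      have h2 : n * n ≤ k * (2 * n) := by nlinarith
      omega
    have h1 := hu (by omega)
    have h2 : 4 * (r : ℤ) ≤ n - 2 * k := by
      by_contra hcon
      push Not at hcon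
      have h3 : (0 : ℤ) < n - 2 * k := by omega
      have h4 : ((n : ℤ) - 2 * k) ^ 2 < 16 * (r : ℤ) ^ 2 := by nlinarith
      have h5 : (16 : ℤ) * (r : ℤ) ^ 2 ≤ k := by exact_mod_cast hk
      linarith
    have h3 : 2 * n + r ≤ n₃ := by
      have h4 : (k : ℤ) * (n₃ - 2 * n) = n * (n - 2 * k) := by
        have : (k : ℤ) * n₃ = n * n := by exact_mod_cast hkn3
        linear_combination this
      have hk0' : (0 : ℤ) < k := by exact_mod_cast hk0
      have hkn' : (k : ℤ) < n := by exact_mod_cast hkn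
      have h5 : (k : ℤ) * (n - 2 * k) ≤ k * (n₃ - 2 * n) := by
        rw [h4]
        have : (0 : ℤ) ≤ n - 2 * k := by omega
        nlinarith
      have h6 : (n - 2 * k : ℤ) ≤ n₃ - 2 * n := le_of_mul_le_mul_left h5 hk0'
      omega
    exact so_far S D₁ D₂ D₃ hc hL (by linarith) hkm (by omega) h3 heq

end Pool.Agent.K4H73.NP
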