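import Mathlib
import Pool.Agent.K4H73.NP.SoInt
import Pool.Agent.Results.MP_bbc1fa_nt.ShortIntervals

/-!
# Four numbers near `g ^ k`, `g ^ n`, `g ^ k`, `g ^ n`
-/

set_option autoImplicit false

namespace Pool.Agent.K4H73.NP

/-- the rows or the columns of `(a, b; c, d)` are linearly dependent over the rationals, with a
positive factor -/
def Dep (a b c d : ℝ) : Prop :=
  (∃ p q : ℕ, 0 < p ∧ 0 < q ∧ p * a = q * b ∧ p * c = q * d) ∨
  (∃ p q : ℕ, 0 < p ∧ 0 < q ∧ p * a = q * c ∧ p * b = q * d)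

lemma Dep.cols {a b c d : ℝ} (h : Dep a b c d) : Dep b a d c := by
  rcases h with ⟨p, q, hp, hq, h1, h2⟩ | ⟨p, q, hp, hq, h1, h2⟩
  · exact Or.inl ⟨q, p, hq, hp, h1.symm, h2.symm⟩
  · exact Or.inr ⟨p, q, hp, hq, h2, h1⟩

lemma Dep.rows {a b c d : ℝ} (h : Dep a b c d) : Dep c d a b := by
  rcases h with ⟨p, q, hp, hq, h1, h2⟩ | ⟨p, q, hp, hq, h1, h2⟩
  · exact Or.inl ⟨p, q, hp, hq, h2, h1⟩
  · exact Or.inr ⟨q, p, hq, hp, h1.symm, h2.symm⟩

lemma Dep.tr {a b c d : ℝ} (h : Dep a b c d) : Dep a c b d := by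
  rcases h with ⟨p, q, hp, hq, h1, h2⟩ | ⟨p, q, hp, hq, h1, h2⟩
  · exact Or.inr ⟨p, q, hp, hq, h1, h2⟩
  · exact Or.inl ⟨p, q, hp, hq, h1, h2⟩

lemma half_le_log {g : ℕ} (hg : 2 ≤ g) : 1 / 2 ≤ Real.log g := by
  have h1 : Real.log 2 ≤ Real.log g := Real.log_le_log (by norm_num) (by exact_mod_cast hg)
  have := Real.log_two_gt_d9
  linarith

lemma log_mul_w {g : ℕ} (hg : 2 ≤ g) : Real.log g * w g 1 ≤ 1 := by
  have h0 : (0 : ℝ) < g := by exact_mod_cast (by omega : 0 < g)
  have h1 := Real.log_le_sub_one_of_pos h0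
  unfold w
  rw [pow_one, ← div_eq_mul_inv, div_le_iff₀ h0]
  linarith

lemma log_inj {a b : ℕ} (ha : 2 ≤ a) (hb : 2 ≤ b) (h : Real.log a = Real.log b) : a = b := by
  have ha0 : (0 : ℝ) < a := by exact_mod_cast (by omega : 0 < a)
  have hb0 : (0 : ℝ) < b := by exact_mod_cast (by omega : 0 < b)
  exact_mod_cast Real.log_injOn_pos (Set.mem_Ioi.2 ha0) (Set.mem_Ioi.2 hb0) h

lemma cube_sub (x y : ℤ) {n : ℕ} (hx : |x| ^ 3 ≤ n) (hy : |y| ^ 3 ≤ n) : |x - y| ^ 3 ≤ 8 * n := by
  have h1 : |x - y| ≤ |x| + |y| := abs_sub x y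
  have h2 : |x - y| ^ 3 ≤ (|x| + |y|) ^ 3 := pow_le_pow_left₀ (abs_nonneg _) h1 3
  have h3 : (|x| + |y|) ^ 3 ≤ 4 * (|x| ^ 3 + |y| ^ 3) := by
    have hx0 := abs_nonneg x
    have hy0 := abs_nonneg y
    nlinarith [mul_nonneg (add_nonneg hx0 hy0) (sq_nonneg (|x| - |y|))]
  linarith

lemma caseE {g m r k n a b c d : ℕ} {ca cb cc cd : ℤ} (S : Sz g m r)
    (Ha : Nr g a k ca) (Hb : Nr g b n cb) (Hc : Nr g c k cc) (Hd : Nr g d n cd)
    (ha2 : 2 ≤ a) (hb2 : 2 ≤ b) (hc2 : 2 ≤ c) (hd2 : 2 ≤ d)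
    (hk : 16 * r ^ 2 ≤ k) (hkn : k ≤ n) (hnm : n ≤ m)
    (heq : Real.log a * Real.log d = Real.log b * Real.log c) :
    (a = c ∧ b = d) ∨ (a = b ∧ c = d) := by
  have hg := S.hg
  have hm := S.m1
  have hr20 := S.r20
  have hkb := S.k_big hk
  have hL := half_le_log hg
  set L := Real.log g with hLdef
  have hL0 : 0 < L := by linarith
  have hla : 0 < Real.log a := Real.log_pos (by exact_mod_cast (by omega : 1 < a))
  by_cases hac : ca = cc
  · left
    have h1 : a = c := by
      have e1 := Ha.eq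
      have e2 := Hc.eq
      rw [hac] at e1
      exact_mod_cast e1.trans e2.symm
    refine ⟨h1, ?_⟩
    rw [← h1, mul_comm (Real.log b)] at heq
    exact (log_inj hd2 hb2 (mul_left_cancel₀ hla.ne' heq)).symm
  have Da := Ha.dat hg (hkn.trans hnm)
  have Db := Hb.dat hg hnm
  have Dc := Hc.dat hg (hkn.trans hnm)
  have Dd := Hd.dat hg hnm
  rw [← hLdef] at Da Db Dc Dd
  set εa := Real.log a - k * L with hεa
  set εb := Real.log b - n * L with hεb
  set εc := Real.log c - k * L with hεc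
  set εd := Real.log d - n * L with hεd
  have hF : k * L * (εd - εb) + n * L * (εa - εc) + (εa * εd - εb * εc) = 0 := by
    have e1 : Real.log a = k * L + εa := by rw [hεa]; ring
    have e2 : Real.log b = n * L + εb := by rw [hεb]; ring
    have e3 : Real.log c = k * L + εc := by rw [hεc]; ring
    have e4 : Real.log d = n * L + εd := by rw [hεd]; ring
    rw [e1, e2, e3, e4] at heq
    linear_combination heq
  have hw := w_pos hg k
  have hwn := w_pos hg n
  have hwr := w_pos hg r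
  have ea := Da.ε_le S (by omega)
  have eb := Db.ε_le S (by omega)
  have ec := Dc.ε_le S (by omega)
  have ed := Dd.ε_le S (by omega)
  have fa := Da.err S
  have fb := Db.err S
  have fc := Dc.err S
  have fd := Dd.err S
  have hk1 : (1 : ℝ) ≤ k := by exact_mod_cast Ha.pos
  have hn1 : (1 : ℝ) ≤ n := by exact_mod_cast Hb.pos
  have hkm : (k : ℝ) ≤ m := Da.k_le
  have hnm' : (n : ℝ) ≤ m := Db.k_le
  have hwnk : w g n ≤ w g k := w_anti hg hkn
  have hwkr : w g k ≤ w g r := w_anti hg (by omega)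
  have hP : |εa * εd - εb * εc| ≤ 8 * m ^ 2 * (w g k * w g n) := by
    have h1 : |εa| * |εd| ≤ (2 * m * w g k) * (2 * m * w g n) :=
      mul_le_mul ea ed (abs_nonneg _) (by positivity)
    have h2 : |εb| * |εc| ≤ (2 * m * w g n) * (2 * m * w g k) :=
      mul_le_mul eb ec (abs_nonneg _) (by positivity)
    refine (abs_sub _ _).trans ?_
    rw [abs_mul, abs_mul]
    linarith
  have hW2 := S.wr (p := 2) (by norm_num)
  have hW3 := S.wr (p := 3) (by norm_num)
  have hcac : (1 : ℝ) ≤ |(ca : ℝ) - cc| := by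
    rw [← Int.cast_sub, ← Int.cast_abs]
    exact_mod_cast Int.one_le_abs (sub_ne_zero.2 hac)
  rcases Nat.lt_or_ge n (k + r) with hnear | hfar
  · -- near
    obtain ⟨δ, hδ⟩ : ∃ δ, n = k + δ := ⟨n - k, by omega⟩
    have hw12 : w g n = w g k * w g δ := by rw [hδ, w_add]
    have hgδ : w g δ * (g : ℝ) ^ δ = 1 := by
      unfold w
      have : (0 : ℝ) < g := by exact_mod_cast (by omega : 0 < g)
      field_simp
    obtain ⟨I, hI⟩ : ∃ I : ℤ, I = (k + δ : ℕ) * (ca - cc) * g ^ δ + k * (cd - cb) := ⟨_, rfl⟩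
    have hmain : L * (w g n * I) = k * L * (cd * w g n - cb * w g n) +
        n * L * (ca * w g k - cc * w g k) := by
      have h1 : w g k = w g n * (g : ℝ) ^ δ := by
        rw [hw12, mul_assoc, hgδ, mul_one]
      rw [h1, hI]
      push_cast
      rw [hδ]
      push_cast
      ring
    have herr : L * (w g n * |(I : ℝ)|) ≤ L * (24 * (w g n * (m ^ 3 * w g r))) := by
      have h1 : L * (w g n * |(I : ℝ)|) = |L * (w g n * I)| := by
        rw [abs_mul, abs_mul, abs_of_pos hL0, abs_of_pos hwn]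
      have h2 : L * (w g n * I) = -(k * L * ((εd - cd * w g n) - (εb - cb * w g n)) +
          n * L * ((εa - ca * w g k) - (εc - cc * w g k)) + (εa * εd - εb * εc)) := by
        rw [hmain]; linear_combination hF
      rw [h1, h2, abs_neg]
      have h3 : |k * L * ((εd - cd * w g n) - (εb - cb * w g n))| ≤
          m * L * (4 * (m ^ 2 * w g k ^ 2)) := by
        rw [abs_mul, abs_of_nonneg (by positivity)]
        refine mul_le_mul (mul_le_mul_of_nonneg_right hkm hL0.le) ?_ (abs_nonneg _) (by positivity)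
        refine (abs_sub _ _).trans ?_
        have h4 : w g n ^ 2 ≤ w g k ^ 2 := pow_le_pow_left₀ hwn.le hwnk 2
        have h5 : (m : ℝ) ^ 2 * w g n ^ 2 ≤ m ^ 2 * w g k ^ 2 :=
          mul_le_mul_of_nonneg_left h4 (by positivity)
        linarith
      have h4 : |n * L * ((εa - ca * w g k) - (εc - cc * w g k))| ≤
          m * L * (4 * (m ^ 2 * w g k ^ 2)) := by
        rw [abs_mul, abs_of_nonneg (by positivity)]
        refine mul_le_mul (mul_le_mul_of_nonneg_right hnm' hL0.le) ?_ (abs_nonneg _) (by positivity)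
        refine (abs_sub _ _).trans ?_
        linarith
      have h5 : |εa * εd - εb * εc| ≤ 16 * L * m ^ 3 * w g k ^ 2 := by
        refine hP.trans ?_
        have h6 : w g k * w g n ≤ w g k ^ 2 := by
          rw [sq]; exact mul_le_mul_of_nonneg_left hwnk hw.le
        have h7 : 8 * (m : ℝ) ^ 2 * (w g k * w g n) ≤ 8 * m ^ 2 * w g k ^ 2 :=
          mul_le_mul_of_nonneg_left h6 (by positivity)
        have h8 : 8 * (m : ℝ) ^ 2 * w g k ^ 2 ≤ (16 * L * m) * (m ^ 2 * w g k ^ 2) := by
          have h9 : (8 : ℝ) ≤ 16 * L * m := by nlinarith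
          have h10 : 0 ≤ (m : ℝ) ^ 2 * w g k ^ 2 := by positivity
          nlinarith
        linarith [show (16 * L * m) * ((m : ℝ) ^ 2 * w g k ^ 2) = 16 * L * m ^ 3 * w g k ^ 2 by ring]
      have h6 : |k * L * ((εd - cd * w g n) - (εb - cb * w g n)) +
          n * L * ((εa - ca * w g k) - (εc - cc * w g k)) + (εa * εd - εb * εc)| ≤
          24 * L * m ^ 3 * w g k ^ 2 := by
        refine (abs_add_le _ _).trans ?_
        have h7 := abs_add_le (k * L * ((εd - cd * w g n) - (εb - cb * w g n)))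
          (n * L * ((εa - ca * w g k) - (εc - cc * w g k)))
        have h8 : m * L * (4 * ((m : ℝ) ^ 2 * w g k ^ 2)) = 4 * L * m ^ 3 * w g k ^ 2 := by ring
        rw [h8] at h3 h4
        linarith
      refine h6.trans ?_
      have h7 : w g k ≤ w g δ * w g r := w_le_mul hg (by omega)
      have h8 : w g k ^ 2 ≤ w g n * w g r := by
        rw [hw12, sq, mul_assoc]
        exact mul_le_mul_of_nonneg_left h7 hw.le
      have h9 : 24 * L * (m : ℝ) ^ 3 * w g k ^ 2 ≤ 24 * L * m ^ 3 * (w g n * w g r) :=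
        mul_le_mul_of_nonneg_left h8 (by positivity)
      linarith [h9]
    have hI0 : I = 0 := by
      by_contra hI0
      have h1 : (1 : ℝ) ≤ |(I : ℝ)| := by
        rw [← Int.cast_abs]; exact_mod_cast Int.one_le_abs hI0
      have h2 := le_of_mul_le_mul_left herr hL0
      have h3 : w g n ≤ w g n * |(I : ℝ)| := by nlinarith
      have h4 : w g n * ((m : ℝ) ^ 3 * w g r) ≤ w g n * (1 / 2 ^ 20) :=
        mul_le_mul_of_nonneg_left hW3 hwn.le
      have h5 : 24 * (w g n * (1 / 2 ^ 20)) < w g n := by norm_num; linarith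
      linarith
    rcases Nat.eq_zero_or_pos δ with hδ0 | hδ1
    · -- equal exponents
      subst hδ0
      rw [hI] at hI0
      simp only [add_zero, pow_zero, mul_one] at hI0 hδ
      have hk0 : (k : ℤ) ≠ 0 := by have := Ha.pos; omega
      have h1 : (k : ℤ) * (ca - cc + (cd - cb)) = 0 := by rw [mul_add]; exact hI0
      have h2 : ca - cc + (cd - cb) = 0 := by
        rcases mul_eq_zero.1 h1 with h | h
        · exact absurd h hk0
        · exact h
      have h3 : (a : ℤ) + d = b + c := by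
        rw [Ha.eq, Hb.eq, Hc.eq, Hd.eq, hδ]
        linarith
      have h4 : (a : ℝ) + d = b + c := by exact_mod_cast h3
      have one : ∀ x : ℕ, 2 ≤ x → (1 : ℝ) < x := fun x hx => by exact_mod_cast (by omega : 1 < x)
      rcases Pool.Agent.Results.MP_bbc1fa_nt.ShortIntervals.equal_sums (one a ha2) (one d hd2)
        (one b hb2) (one c hc2) h4 heq with ⟨h5, h6⟩ | ⟨h5, h6⟩
      · right
        exact ⟨by exact_mod_cast h5, by exact_mod_cast h6.symm⟩
      · left
        exact ⟨by exact_mod_cast h5, by exact_mod_cast h6.symm⟩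
    · exfalso
      refine hac (sub_eq_zero.1 (int_ne (c₂ := -(cd - cb)) hg (k := k) (by omega) hδ1 ?_ ?_))
      · rw [abs_neg]
        have h1 := Hd.le
        have h2 := Hb.le
        rw [hδ] at h1 h2
        exact cube_sub cd cb h1 h2
      · rw [hI] at hI0
        linear_combination hI0
  · -- far
    exfalso
    have h1 : w g k / 2 ≤ |εa - εc| := by
      have h2 : ((ca : ℝ) - cc) * w g k = (εa - εc) - (εa - ca * w g k) + (εc - cc * w g k) := by ring
      have h3 : |((ca : ℝ) - cc) * w g k| ≤ |εa - εc| + 4 * (m ^ 2 * w g k ^ 2) := by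
        rw [h2]
        have h4 := abs_add_le (εa - εc - (εa - ca * w g k)) (εc - cc * w g k)
        have h5 := abs_sub (εa - εc) (εa - ca * w g k)
        linarith
      have h4 : w g k ≤ |((ca : ℝ) - cc) * w g k| := by
        rw [abs_mul, abs_of_pos hw]; nlinarith
      have h5 : (m : ℝ) ^ 2 * w g k ^ 2 ≤ w g k * (1 / 2 ^ 20) := by
        have h8 : (m : ℝ) ^ 2 * w g k ^ 2 ≤ w g k * (m ^ 2 * w g r) := by
          have := mul_le_mul_of_nonneg_left hwkr (show (0 : ℝ) ≤ (m : ℝ) ^ 2 * w g k by positivity)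
          nlinarith
        exact h8.trans (mul_le_mul_of_nonneg_left hW2 hw.le)
      have h6 : 4 * (w g k * (1 / 2 ^ 20)) ≤ w g k / 2 := by norm_num; linarith
      linarith
    have h2 : L * (w g k / 2) ≤ |n * L * (εa - εc)| := by
      rw [abs_mul, abs_of_nonneg (by positivity)]
      have h3 : L * |εa - εc| ≤ n * L * |εa - εc| := by
        have : 0 ≤ L * |εa - εc| := by positivity
        nlinarith
      have := mul_le_mul_of_nonneg_left h1 hL0.le
      linarith
    have h3 : |n * L * (εa - εc)| ≤ |k * L * (εd - εb)| + |εa * εd - εb * εc| := by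
      have h4 : n * L * (εa - εc) = -(k * L * (εd - εb)) - (εa * εd - εb * εc) := by
        linear_combination hF
      rw [h4]
      refine (abs_sub _ _).trans ?_
      rw [abs_neg]
    have hwf : w g n ≤ w g k * w g r := w_le_mul hg hfar
    have h4 : |k * L * (εd - εb)| ≤ L * (4 * (w g k * (m ^ 2 * w g r))) := by
      rw [abs_mul, abs_of_nonneg (by positivity)]
      have h5 : |εd - εb| ≤ 4 * m * (w g k * w g r) := by
        refine (abs_sub _ _).trans ?_
        have := mul_le_mul_of_nonneg_left hwf (show (0 : ℝ) ≤ 4 * m by positivity)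
        linarith
      have h6 : k * L * |εd - εb| ≤ m * L * (4 * m * (w g k * w g r)) :=
        mul_le_mul (mul_le_mul_of_nonneg_right hkm hL0.le) h5 (abs_nonneg _) (by positivity)
      linarith [show m * L * (4 * m * (w g k * w g r)) = L * (4 * (w g k * ((m : ℝ) ^ 2 * w g r))) by ring]
    have h5 : |εa * εd - εb * εc| ≤ L * (16 * (w g k * (m ^ 2 * w g r))) := by
      refine hP.trans ?_
      have h6 : w g k * w g n ≤ w g k * w g r :=
        mul_le_mul_of_nonneg_left (hwnk.trans hwkr) hw.le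
      have h7 : 8 * (m : ℝ) ^ 2 * (w g k * w g n) ≤ 8 * m ^ 2 * (w g k * w g r) :=
        mul_le_mul_of_nonneg_left h6 (by positivity)
      have h8 : 8 * (m : ℝ) ^ 2 * (w g k * w g r) ≤ (16 * L) * (m ^ 2 * (w g k * w g r)) := by
        have h10 : 0 ≤ (m : ℝ) ^ 2 * (w g k * w g r) := by positivity
        nlinarith
      linarith [show (16 * L) * ((m : ℝ) ^ 2 * (w g k * w g r)) = L * (16 * (w g k * (m ^ 2 * w g r))) by
        ring]
    have h6 : w g k * ((m : ℝ) ^ 2 * w g r) ≤ w g k * (1 / 2 ^ 20) :=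
      mul_le_mul_of_nonneg_left hW2 hw.le
    have h7 : L * (20 * (w g k * ((m : ℝ) ^ 2 * w g r))) ≤ L * (20 * (w g k * (1 / 2 ^ 20))) :=
      mul_le_mul_of_nonneg_left (by linarith) hL0.le
    have h8 : L * (20 * (w g k * (1 / 2 ^ 20))) < L * (w g k / 2) := by
      apply mul_lt_mul_of_pos_left _ hL0
      norm_num; linarith
    linarith

end Pool.Agent.K4H73.NP
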