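import Mathlib
import Pool.Agent.K4H73.NP.CaseE

/-!
# Four numbers near powers
-/

set_option autoImplicit false

namespace Pool.Agent.K4H73.NP

/-- the smallest exponent is `k`, the two exponents `n₁`, `n₂` next to it are larger -/
lemma caseN {g m r k n₁ n₂ n₃ a b c d : ℕ} {ca cb cc cd : ℤ} (S : Sz g m r)
    (Ha : Nr g a k ca) (Hb : Nr g b n₂ cb) (Hc : Nr g c n₁ cc) (Hd : Nr g d n₃ cd)
    (hk : 16 * r ^ 2 ≤ k) (hkn : k < n₁) (h12 : n₁ ≤ n₂) (hnm : n₃ ≤ m)
    (hkn3 : k * n₃ = n₁ * n₂)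
    (heq : Real.log a * Real.log d = Real.log b * Real.log c) :
    Dep (Real.log a) (Real.log b) (Real.log c) (Real.log d) := by
  have hg := S.hg
  have hm := S.m1
  have hr20 := S.r20
  have hkb := S.k_big hk
  have hL := half_le_log hg
  have hLg := log_mul_w hg
  set L := Real.log g with hLdef
  have hL0 : 0 < L := by linarith
  have hk0 : 0 < k := by omega
  obtain ⟨j, hj⟩ : ∃ j, n₁ = k + j := ⟨n₁ - k, by omega⟩
  have hj1 : 1 ≤ j := by omega
  have h23' : k * (n₃ - n₂) = j * n₂ := by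
    rw [Nat.mul_sub, hkn3, hj, add_mul]
    omega
  have hn3n2 : n₂ + j ≤ n₃ := by
    have h1 : k * j ≤ k * (n₃ - n₂) := by
      rw [h23', mul_comm k j]
      exact Nat.mul_le_mul_left _ (by omega)
    have := Nat.le_of_mul_le_mul_left h1 hk0
    omega
  have h23 : n₂ < n₃ := by omega
  have hij : k ≤ j * (n₂ - k) := by
    have h1 : k ∣ j * (n₂ - k) := by
      have h2 : j * (n₂ - k) + k * j = k * (n₃ - n₂) := by
        rw [h23', Nat.mul_sub, mul_comm k j]
        have : j * k ≤ j * n₂ := Nat.mul_le_mul_left _ (by omega)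
        omega
      have h3 : k ∣ j * (n₂ - k) + k * j := by rw [h2]; exact dvd_mul_right _ _
      exact (Nat.dvd_add_left (dvd_mul_right k j)).1 h3
    exact Nat.le_of_dvd (Nat.mul_pos hj1 (by omega)) h1
  have Da := Ha.dat hg (m := m) (by omega)
  have Db := Hb.dat hg (m := m) (by omega)
  have Dc := Hc.dat hg (m := m) (by omega)
  have Dd := Hd.dat hg hnm
  rw [← hLdef] at Da Db Dc Dd
  set εa := Real.log a - k * L with hεa
  set εb := Real.log b - n₂ * L with hεb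
  set εc := Real.log c - n₁ * L with hεc
  set εd := Real.log d - n₃ * L with hεd
  have e1 : Real.log a = k * L + εa := by rw [hεa]; ring
  have e2 : Real.log b = n₂ * L + εb := by rw [hεb]; ring
  have e3 : Real.log c = n₁ * L + εc := by rw [hεc]; ring
  have e4 : Real.log d = n₃ * L + εd := by rw [hεd]; ring
  have hkr : (k : ℝ) * n₃ = n₁ * n₂ := by exact_mod_cast hkn3
  have hF : L * (k * εd + n₃ * εa - n₂ * εc - n₁ * εb) + (εa * εd - εb * εc) = 0 := by
    rw [e1, e2, e3, e4] at heq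
    linear_combination heq - L ^ 2 * hkr
  have hwk := w_pos hg k
  have hw1 := w_pos hg n₁
  have hw2 := w_pos hg n₂
  have hw3 := w_pos hg n₃
  have hwr := w_pos hg r
  have ea := Da.ε_le S (by omega)
  have eb := Db.ε_le S (by omega)
  have ec := Dc.ε_le S (by omega)
  have ed := Dd.ε_le S (by omega)
  have hk1r : (1 : ℝ) ≤ k := by exact_mod_cast hk0
  have hn2r : (1 : ℝ) ≤ n₂ := by exact_mod_cast Hb.pos
  have hkm : (k : ℝ) ≤ m := Da.k_le
  have hn1m : (n₁ : ℝ) ≤ m := Dc.k_le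
  have hn2m : (n₂ : ℝ) ≤ m := Db.k_le
  by_cases hca : ca = 0
  · -- the exponent `k` belongs to an exact power
    have hεa0 := Da.ε_zero hca
    rw [hεa0] at hF
    have heq' : k * L * εd = L * (n₂ * εc + n₁ * εb) + εc * εb := by linear_combination hF
    have hsep : n₂ < n₁ + r → n₂ + r ≤ n₃ := by
      intro hlt
      have h1 : 3 * r ≤ j := by
        by_contra hcon
        push Not at hcon
        have h2 : n₂ - k < 4 * r := by omega
        have h3 : j * (n₂ - k) ≤ 3 * r * (4 * r) := Nat.mul_le_mul hcon.le h2.le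
        nlinarith
      omega
    rcases gamma S Dc Db Dd hL (by linarith : (0 : ℝ) < k) hkm (by omega) h12 h23 hsep hkr heq' with
      ⟨h1, h2, h3⟩ | ⟨h1, h2, h3⟩
    · left
      refine ⟨n₂, k, Hb.pos, hk0, ?_, ?_⟩
      · rw [e1, e2, hεa0, h2]; ring
      · rw [e3, e4, h1, h3]
        linear_combination -L * hkr
    · exfalso
      subst h1
      subst h2
      refine so_int S Dc Db Dd h3 hL hLg hk hkn hkn3 ?_
      linear_combination heq'
  · -- impossible
    exfalso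
    have hT := T_bound S Da Dc hk hkn hca (-1) (Or.inr rfl)
    set T : ℝ := (n₁ : ℝ) * εa + ((-1 : ℤ) : ℝ) * k * εc with hTdef
    have hTm : |T| ≤ 20 * m ^ 3 * w g n₂ := by
      have h0 : L * (n₂ * T + k ^ 2 * εd - k * n₁ * εb) + k * (εa * εd - εb * εc) = 0 := by
        rw [hTdef]; push_cast
        linear_combination (k : ℝ) * hF - L * εa * hkr
      have h1 : L * (n₂ * T) = -(L * (k ^ 2 * εd - k * n₁ * εb) + k * (εa * εd - εb * εc)) := by
        linear_combination h0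
      have h2 : |k ^ 2 * εd - k * n₁ * εb| ≤ 4 * m ^ 3 * w g n₂ := by
        have h3 : |(k : ℝ) ^ 2 * εd| ≤ 2 * m ^ 3 * w g n₂ := by
          rw [abs_mul, abs_of_nonneg (by positivity)]
          have h4 : |εd| ≤ 2 * m * w g n₂ :=
            ed.trans (mul_le_mul_of_nonneg_left (w_anti hg h23.le) (by positivity))
          have h5 : (k : ℝ) ^ 2 ≤ m ^ 2 := pow_le_pow_left₀ (by linarith) hkm 2
          calc (k : ℝ) ^ 2 * |εd| ≤ m ^ 2 * (2 * m * w g n₂) :=
                mul_le_mul h5 h4 (abs_nonneg _) (by positivity)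
            _ = _ := by ring
        have h4 : |(k : ℝ) * n₁ * εb| ≤ 2 * m ^ 3 * w g n₂ := by
          rw [abs_mul, abs_of_nonneg (by positivity)]
          have h5 : (k : ℝ) * n₁ ≤ m * m := mul_le_mul hkm hn1m (by positivity) (by linarith)
          calc (k : ℝ) * n₁ * |εb| ≤ m * m * (2 * m * w g n₂) :=
                mul_le_mul h5 eb (abs_nonneg _) (by positivity)
            _ = _ := by ring
        refine (abs_sub _ _).trans ?_
        linarith
      have h3 : |εa * εd - εb * εc| ≤ 8 * m ^ 2 * w g n₂ := by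
        have h4 : |εa| * |εd| ≤ (2 * m * w g k) * (2 * m * w g n₃) :=
          mul_le_mul ea ed (abs_nonneg _) (by positivity)
        have h5 : |εb| * |εc| ≤ (2 * m * w g n₂) * (2 * m * w g n₁) :=
          mul_le_mul eb ec (abs_nonneg _) (by positivity)
        have h6 : w g k * w g n₃ ≤ 1 * w g n₂ :=
          mul_le_mul (w_le_one hg k) (w_anti hg h23.le) hw3.le (by norm_num)
        have h7 : w g n₂ * w g n₁ ≤ w g n₂ * 1 :=
          mul_le_mul_of_nonneg_left (w_le_one hg n₁) hw2.le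
        have h8 : 4 * (m : ℝ) ^ 2 * (w g k * w g n₃) ≤ 4 * m ^ 2 * (1 * w g n₂) :=
          mul_le_mul_of_nonneg_left h6 (by positivity)
        have h9 : 4 * (m : ℝ) ^ 2 * (w g n₂ * w g n₁) ≤ 4 * m ^ 2 * (w g n₂ * 1) :=
          mul_le_mul_of_nonneg_left h7 (by positivity)
        refine (abs_sub _ _).trans ?_
        rw [abs_mul, abs_mul]
        linarith
      have h4 : L * |T| ≤ L * (20 * m ^ 3 * w g n₂) := by
        have h5 : L * |T| ≤ |L * (n₂ * T)| := by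
          rw [abs_mul, abs_mul, abs_of_pos hL0, Nat.abs_cast]
          have : 0 ≤ L * |T| := by positivity
          nlinarith
        refine h5.trans ?_
        rw [h1, abs_neg]
        refine (abs_add_le _ _).trans ?_
        rw [abs_mul, abs_mul, abs_of_pos hL0, Nat.abs_cast]
        have h6 : L * |k ^ 2 * εd - k * n₁ * εb| ≤ L * (4 * m ^ 3 * w g n₂) :=
          mul_le_mul_of_nonneg_left h2 hL0.le
        have h7 : (k : ℝ) * |εa * εd - εb * εc| ≤ m * (8 * m ^ 2 * w g n₂) :=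
          mul_le_mul hkm h3 (abs_nonneg _) (by linarith)
        have h8 : m * (8 * (m : ℝ) ^ 2 * w g n₂) ≤ L * (16 * m ^ 3 * w g n₂) := by
          have : 0 ≤ (m : ℝ) ^ 3 * w g n₂ := by positivity
          nlinarith
        nlinarith
      exact le_of_mul_le_mul_left h4 hL0
    have hW3 := S.wr (p := 3) (by norm_num)
    rcases Nat.lt_or_ge n₁ (k + r) with hnear | hfar
    · have h1 := hT.2 hnear
      have h2 : n₁ + r ≤ n₂ := by
        have h3 : 16 * r < n₂ - k := by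
          by_contra hcon
          push Not at hcon
          have h4 : j * (n₂ - k) ≤ (r - 1) * (16 * r) := Nat.mul_le_mul (by omega) hcon
          have h5 : (r - 1) * (16 * r) < 16 * r ^ 2 := by
            have : r - 1 + 1 = r := by omega
            nlinarith
          omega
        omega
      have h3 : w g n₂ ≤ w g n₁ * w g r := w_le_mul hg h2
      have h4 : 20 * (m : ℝ) ^ 3 * w g n₂ ≤ 20 * (w g n₁ * (m ^ 3 * w g r)) := by
        have := mul_le_mul_of_nonneg_left h3 (show (0 : ℝ) ≤ 20 * (m : ℝ) ^ 3 by positivity)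
        linarith
      have h5 : w g n₁ * ((m : ℝ) ^ 3 * w g r) ≤ w g n₁ * (1 / 2 ^ 20) :=
        mul_le_mul_of_nonneg_left hW3 hw1.le
      have h6 : 20 * (w g n₁ * (1 / 2 ^ 20)) < w g n₁ / 2 := by norm_num; linarith
      linarith
    · have h1 := hT.1 hfar
      have h3 : w g n₂ ≤ w g k * w g r := w_le_mul hg (by omega)
      have h4 : 20 * (m : ℝ) ^ 3 * w g n₂ ≤ 20 * (w g k * (m ^ 3 * w g r)) := by
        have := mul_le_mul_of_nonneg_left h3 (show (0 : ℝ) ≤ 20 * (m : ℝ) ^ 3 by positivity)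
        linarith
      have h5 : w g k * ((m : ℝ) ^ 3 * w g r) ≤ w g k * (1 / 2 ^ 20) :=
        mul_le_mul_of_nonneg_left hW3 hwk.le
      have h6 : 20 * (w g k * (1 / 2 ^ 20)) < w g k / 4 := by norm_num; linarith
      linarith

/-- the products of the exponents agree -/
lemma prod_eq {g m r k₁ k₂ k₃ k₄ : ℕ} {c₁ c₂ c₃ c₄ : ℤ} {ε₁ ε₂ ε₃ ε₄ L : ℝ} (S : Sz g m r)
    (D₁ : Dat g m k₁ c₁ ε₁) (D₂ : Dat g m k₂ c₂ ε₂) (D₃ : Dat g m k₃ c₃ ε₃) (D₄ : Dat g m k₄ c₄ ε₄)
    (h1 : r ≤ k₁) (h2 : r ≤ k₂) (h3 : r ≤ k₃) (h4 : r ≤ k₄) (hL : 1 / 2 ≤ L)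
    (heq : (k₁ * L + ε₁) * (k₄ * L + ε₄) = (k₂ * L + ε₂) * (k₃ * L + ε₃)) :
    k₁ * k₄ = k₂ * k₃ := by
  have hg := S.hg
  have hm := S.m1
  have hL0 : 0 < L := by linarith
  have hwr := w_pos hg r
  have hs : ∀ {k : ℕ} {c : ℤ} {ε : ℝ}, Dat g m k c ε → r ≤ k → |ε| ≤ 2 * m * w g r := by
    intro k c ε D hk
    exact (D.ε_le S hk).trans (mul_le_mul_of_nonneg_left (w_anti hg hk) (by positivity))
  have e1 := hs D₁ h1
  have e2 := hs D₂ h2
  have e3 := hs D₃ h3
  have e4 := hs D₄ h4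
  by_contra hne
  obtain ⟨I, hI⟩ : ∃ I : ℤ, I = (k₁ : ℤ) * k₄ - k₂ * k₃ := ⟨_, rfl⟩
  have hI0 : I ≠ 0 := by
    intro h0
    apply hne
    have : (k₁ : ℤ) * k₄ = k₂ * k₃ := by linarith
    exact_mod_cast this
  have hI1 : (1 : ℝ) ≤ |(I : ℝ)| := by
    rw [← Int.cast_abs]; exact_mod_cast Int.one_le_abs hI0
  have hIr : (I : ℝ) = k₁ * k₄ - k₂ * k₃ := by rw [hI]; push_cast; ring
  have hF : L * (L * I) = -(L * (k₁ * ε₄ + k₄ * ε₁ - k₂ * ε₃ - k₃ * ε₂) + (ε₁ * ε₄ - ε₂ * ε₃)) := by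
    rw [hIr]; linear_combination heq
  have hW2 := S.wr (p := 2) (by norm_num)
  have t : ∀ {k : ℕ} {ε : ℝ}, (k : ℝ) ≤ m → |ε| ≤ 2 * m * w g r → |(k : ℝ) * ε| ≤ 1 / 2 ^ 19 := by
    intro k ε hk he
    rw [abs_mul, Nat.abs_cast]
    have : (k : ℝ) * |ε| ≤ m * (2 * m * w g r) := mul_le_mul hk he (abs_nonneg _) (by linarith)
    refine this.trans ?_
    have h5 : (m : ℝ) * (2 * m * w g r) = 2 * (m ^ 2 * w g r) := by ring
    rw [h5]
    norm_num at hW2 ⊢
    linarith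
  have t' : ∀ {ε δ : ℝ}, |ε| ≤ 2 * m * w g r → |δ| ≤ 2 * m * w g r → |ε * δ| ≤ 1 / 2 ^ 18 := by
    intro ε δ he hd
    rw [abs_mul]
    have : |ε| * |δ| ≤ (2 * m * w g r) * (2 * m * w g r) := mul_le_mul he hd (abs_nonneg _) (by positivity)
    refine this.trans ?_
    have h5 : (2 * m * w g r) * (2 * m * w g r) = 4 * (m ^ 2 * w g r) * w g r := by ring
    rw [h5]
    have h6 : 4 * ((m : ℝ) ^ 2 * w g r) * w g r ≤ 4 * (1 / 2 ^ 20) * 1 :=
      mul_le_mul (by linarith) (w_le_one hg r) hwr.le (by norm_num)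
    refine h6.trans (by norm_num)
  have a1 := t D₁.k_le e4
  have a2 := t D₄.k_le e1
  have a3 := t D₂.k_le e3
  have a4 := t D₃.k_le e2
  have a5 := t' e1 e4
  have a6 := t' e2 e3
  have h5 : |L * (L * (I : ℝ))| ≤ L * (4 * (1 / 2 ^ 19)) + 2 * (1 / 2 ^ 18) := by
    rw [hF, abs_neg]
    refine (abs_add_le _ _).trans (add_le_add ?_ ?_)
    · rw [abs_mul, abs_of_pos hL0]
      refine mul_le_mul_of_nonneg_left ?_ hL0.le
      have b1 := abs_sub (k₁ * ε₄ + k₄ * ε₁ - k₂ * ε₃) (k₃ * ε₂)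
      have b2 := abs_sub (k₁ * ε₄ + k₄ * ε₁) (k₂ * ε₃)
      have b3 := abs_add_le (k₁ * ε₄) (k₄ * ε₁)
      linarith
    · refine (abs_sub _ _).trans ?_
      linarith
  have h6 : L * (1 / 2) ≤ |L * (L * (I : ℝ))| := by
    rw [abs_mul, abs_mul, abs_of_pos hL0]
    refine mul_le_mul_of_nonneg_left ?_ hL0.le
    nlinarith
  have h7 : L * (4 * (1 / 2 ^ 19)) + 2 * (1 / 2 ^ 18) < L * (1 / 2) := by
    norm_num
    linarith
  linarith

/-- the case of an arbitrary position of the exponents, the smallest one in the position of `a` -/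
lemma case_min {g m r ka kb kc kd a b c d : ℕ} {ca cb cc cd : ℤ} (S : Sz g m r)
    (Ha : Nr g a ka ca) (Hb : Nr g b kb cb) (Hc : Nr g c kc cc) (Hd : Nr g d kd cd)
    (ha2 : 2 ≤ a) (hb2 : 2 ≤ b) (hc2 : 2 ≤ c) (hd2 : 2 ≤ d)
    (hk : 16 * r ^ 2 ≤ ka) (hab : ka ≤ kb) (hac : ka ≤ kc) (had : ka ≤ kd)
    (hbm : kb ≤ m) (hcm : kc ≤ m) (hdm : kd ≤ m)
    (heq : Real.log a * Real.log d = Real.log b * Real.log c) :
    Dep (Real.log a) (Real.log b) (Real.log c) (Real.log d) := by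
  have hg := S.hg
  have hkb := S.k_big hk
  have hr20 := S.r20
  have hL := half_le_log hg
  have hprod : ka * kd = kb * kc := by
    refine prod_eq S (Ha.dat hg (hab.trans hbm)) (Hb.dat hg hbm) (Hc.dat hg hcm) (Hd.dat hg hdm)
      (by omega) (by omega) (by omega) (by omega) hL ?_
    have e : ∀ (n k : ℕ), (k : ℝ) * Real.log g + (Real.log n - k * Real.log g) = Real.log n := by
      intro n k; ring
    rw [e, e, e, e]; exact heq
  have hka0 : 0 < ka := Ha.pos
  rcases Nat.eq_or_lt_of_le hac with h1 | h1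
  · -- kc = ka, kd = kb
    subst h1
    have h2 : kd = kb := by
      rw [mul_comm kb] at hprod
      exact Nat.eq_of_mul_eq_mul_left hka0 hprod
    subst h2
    rcases caseE S Ha Hb Hc Hd ha2 hb2 hc2 hd2 hk hab hbm heq with ⟨h3, h4⟩ | ⟨h3, h4⟩
    · right
      refine ⟨1, 1, one_pos, one_pos, ?_, ?_⟩
      · rw [h3]
      · rw [h4]
    · left
      refine ⟨1, 1, one_pos, one_pos, ?_, ?_⟩
      · rw [h3]
      · rw [h4]
  rcases Nat.eq_or_lt_of_le hab with h2 | h2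
  · -- kb = ka, kd = kc
    subst h2
    have h2 : kd = kc := Nat.eq_of_mul_eq_mul_left hka0 hprod
    subst h2
    have heq' : Real.log a * Real.log d = Real.log c * Real.log b := by rw [heq]; ring
    rcases caseE S Ha Hc Hb Hd ha2 hc2 hb2 hd2 hk hac hcm heq' with ⟨h3, h4⟩ | ⟨h3, h4⟩
    · left
      refine ⟨1, 1, one_pos, one_pos, ?_, ?_⟩
      · rw [h3]
      · rw [h4]
    · right
      refine ⟨1, 1, one_pos, one_pos, ?_, ?_⟩
      · rw [h3]
      · rw [h4]
  rcases Nat.le_total kc kb with h3 | h3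
  · exact caseN S Ha Hb Hc Hd hk h1 h3 hdm (by rw [hprod]; ring) heq
  · exact (caseN S Ha Hc Hb Hd hk h2 h3 hdm hprod (by rw [heq]; ring)).tr

/-- Four numbers near powers of `g`, with exponents between `16 r ^ 2` and `m`. -/
theorem case0 {g m r ka kb kc kd a b c d : ℕ} {ca cb cc cd : ℤ} (S : Sz g m r)
    (Ha : Nr g a ka ca) (Hb : Nr g b kb cb) (Hc : Nr g c kc cc) (Hd : Nr g d kd cd)
    (ha2 : 2 ≤ a) (hb2 : 2 ≤ b) (hc2 : 2 ≤ c) (hd2 : 2 ≤ d)
    (hka : 16 * r ^ 2 ≤ ka) (hkb : 16 * r ^ 2 ≤ kb) (hkc : 16 * r ^ 2 ≤ kc) (hkd : 16 * r ^ 2 ≤ kd)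
    (ham : ka ≤ m) (hbm : kb ≤ m) (hcm : kc ≤ m) (hdm : kd ≤ m)
    (heq : Real.log a * Real.log d = Real.log b * Real.log c) :
    Dep (Real.log a) (Real.log b) (Real.log c) (Real.log d) := by
  by_cases h1 : ka ≤ kb ∧ ka ≤ kc ∧ ka ≤ kd
  · exact case_min S Ha Hb Hc Hd ha2 hb2 hc2 hd2 hka h1.1 h1.2.1 h1.2.2 hbm hcm hdm heq
  by_cases h2 : kb ≤ ka ∧ kb ≤ kc ∧ kb ≤ kd
  · exact (case_min S Hb Ha Hd Hc hb2 ha2 hd2 hc2 hkb h2.1 h2.2.2 h2.2.1 ham hdm hcm
      (by rw [← heq])).cols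
  by_cases h3 : kc ≤ ka ∧ kc ≤ kb ∧ kc ≤ kd
  · exact (case_min S Hc Hd Ha Hb hc2 hd2 ha2 hb2 hkc h3.2.2 h3.1 h3.2.1 hdm ham hbm
      (by rw [mul_comm, ← heq, mul_comm])).rows
  have h4 : kd ≤ ka ∧ kd ≤ kb ∧ kd ≤ kc := by omega
  exact (case_min S Hd Hc Hb Ha hd2 hc2 hb2 ha2 hkd h4.2.2 h4.2.1 h4.1 hcm hbm ham
      (by rw [mul_comm, heq, mul_comm])).rows.cols

end Pool.Agent.K4H73.NP
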