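import Mathlib
import Pool.Agent.K4H73.NP.Case0
import Pool.Agent.K4H73.NP.LFL

/-!
# One or two small entries
-/

set_option autoImplicit false

namespace Pool.Agent.K4H73.NP

/-- conditions on the bound `Y` for the logarithms of the small entries and the lower bound `E` for the
exponents of the others -/
structure Lf (g m r Y N E : ℕ) : Prop where
  Y1 : 1 ≤ Y
  N1 : 1 ≤ N
  gY : Real.log g ≤ Y
  Ym : 2 * Y ≤ m
  hN : 8 * (1 + Real.log (290 * Y * N * (2 * m ^ 2))) ≤ N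
  Er : 16 * r ^ 2 ≤ E
  EY : 8 * Y ≤ E
  small : 16 * (m : ℝ) ^ 2 * Y * w g E ≤ Real.exp (-(20880 * (Y : ℝ) ^ 2 * (N : ℝ) ^ 2))

lemma Lf.lfl {g m r Y N E : ℕ} (F : Lf g m r Y N E) {p q a b : ℕ} (hp : 2 ≤ p) (hq : 2 ≤ q)
    (ha : 1 ≤ a) (hb : 1 ≤ b) (ham : a ≤ m ^ 2) (hbm : b ≤ m ^ 2) (hpY : Real.log p ≤ Y)
    (hqY : Real.log q ≤ Y)
    (h : |b * Real.log q - a * Real.log p| ≤ 16 * (m : ℝ) ^ 2 * Y * w g E) : p ^ a = q ^ b := by
  by_contra hne
  have h1 := lfl_gen p q a b Y N hp hq ha hb hne F.Y1 F.N1 hpY hqY (by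
    refine le_trans ?_ F.hN
    have hY : (1 : ℝ) ≤ Y := by exact_mod_cast F.Y1
    have hN : (1 : ℝ) ≤ N := by exact_mod_cast F.N1
    have ha' : (1 : ℝ) ≤ a := by exact_mod_cast ha
    have hb' : (1 : ℝ) ≤ b := by exact_mod_cast hb
    have h2 : (a : ℝ) + b ≤ 2 * m ^ 2 := by
      have : (a : ℝ) ≤ m ^ 2 := by exact_mod_cast ham
      have : (b : ℝ) ≤ m ^ 2 := by exact_mod_cast hbm
      linarith
    have h3 : Real.log (290 * Y * N * (a + b)) ≤ Real.log (290 * Y * N * (2 * m ^ 2)) := by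
      apply Real.log_le_log (by positivity)
      exact mul_le_mul_of_nonneg_left h2 (by positivity)
    linarith)
  exact absurd (h.trans F.small) (not_le.2 h1)

/-- from `p ^ a = q ^ b` to logarithms -/
lemma log_of_pow_eq {p q a b : ℕ} (h : p ^ a = q ^ b) :
    (a : ℝ) * Real.log p = b * Real.log q := by
  have h1 : ((p : ℝ)) ^ a = (q : ℝ) ^ b := by exact_mod_cast h
  rw [← Real.log_pow, ← Real.log_pow, h1]

/-- One small entry, at the position of `a`. -/
lemma case1_aux {g m r Y N E k₁ k₂ k₃ a b c d : ℕ} {cb cc cd : ℤ} (S : Sz g m r)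
    (F : Lf g m r Y N E)
    (ha2 : 2 ≤ a) (haY : Real.log a ≤ Y)
    (Hb : Nr g b k₂ cb) (Hc : Nr g c k₁ cc) (Hd : Nr g d k₃ cd)
    (h1E : E ≤ k₁) (h2E : E ≤ k₂) (h3E : E ≤ k₃) (h2m : k₂ ≤ m) (h3m : k₃ ≤ m)
    (h12 : k₁ ≤ k₂)
    (heq : Real.log a * Real.log d = Real.log b * Real.log c) :
    Dep (Real.log a) (Real.log b) (Real.log c) (Real.log d) := by
  have hg := S.hg
  have hm := S.m1
  have hr20 := S.r20
  have hEr := F.Er
  have hkb := S.k_big (hEr.trans h1E)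
  have hkb3 := S.k_big (hEr.trans h3E)
  have hL := half_le_log hg
  set L := Real.log g with hLdef
  have hL0 : 0 < L := by linarith
  have hla : 0 < Real.log a := Real.log_pos (by exact_mod_cast (by omega : 1 < a))
  have Db := Hb.dat hg h2m
  have Dc := Hc.dat hg (h12.trans h2m)
  have Dd := Hd.dat hg h3m
  rw [← hLdef] at Db Dc Dd
  set εb := Real.log b - k₂ * L with hεb
  set εc := Real.log c - k₁ * L with hεc
  set εd := Real.log d - k₃ * L with hεd
  have e2 : Real.log b = k₂ * L + εb := by rw [hεb]; ring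
  have e3 : Real.log c = k₁ * L + εc := by rw [hεc]; ring
  have e4 : Real.log d = k₃ * L + εd := by rw [hεd]; ring
  have hwE := w_pos hg E
  have eb := (Db.ε_le S (by omega)).trans
    (mul_le_mul_of_nonneg_left (w_anti hg h2E) (by positivity))
  have ec := (Dc.ε_le S (by omega)).trans
    (mul_le_mul_of_nonneg_left (w_anti hg h1E) (by positivity))
  have ed := (Dd.ε_le S (by omega)).trans
    (mul_le_mul_of_nonneg_left (w_anti hg h3E) (by positivity))
  have hY1 : (1 : ℝ) ≤ Y := by exact_mod_cast F.Y1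
  have hk1m : (k₁ : ℝ) ≤ m := Dc.k_le
  have hk2m : (k₂ : ℝ) ≤ m := Db.k_le
  have hF : L * (k₃ * Real.log a - k₁ * k₂ * L) =
      -(Real.log a * εd) + L * (k₂ * εc + k₁ * εb) + εb * εc := by
    rw [e2, e3, e4] at heq
    linear_combination heq
  have hsm : |(k₃ : ℝ) * Real.log a - ((k₁ * k₂ : ℕ) : ℝ) * L| ≤ 16 * (m : ℝ) ^ 2 * Y * w g E := by
    have h1 : L * |(k₃ : ℝ) * Real.log a - ((k₁ * k₂ : ℕ) : ℝ) * L| ≤
        L * (16 * (m : ℝ) ^ 2 * Y * w g E) := by
      have h2 : L * |(k₃ : ℝ) * Real.log a - ((k₁ * k₂ : ℕ) : ℝ) * L| =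
          |L * (k₃ * Real.log a - k₁ * k₂ * L)| := by
        rw [abs_mul, abs_of_pos hL0]; push_cast; rfl
      rw [h2, hF]
      have h3 : |Real.log a * εd| ≤ Y * (2 * m * w g E) := by
        rw [abs_mul, abs_of_pos hla]
        exact mul_le_mul haY ed (abs_nonneg _) (by linarith)
      have h4 : |L * (k₂ * εc + k₁ * εb)| ≤ L * (4 * m ^ 2 * w g E) := by
        rw [abs_mul, abs_of_pos hL0]
        refine mul_le_mul_of_nonneg_left ?_ hL0.le
        refine (abs_add_le _ _).trans ?_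
        rw [abs_mul, abs_mul, Nat.abs_cast, Nat.abs_cast]
        have h5 : (k₂ : ℝ) * |εc| ≤ m * (2 * m * w g E) :=
          mul_le_mul hk2m ec (abs_nonneg _) (by linarith)
        have h6 : (k₁ : ℝ) * |εb| ≤ m * (2 * m * w g E) :=
          mul_le_mul hk1m eb (abs_nonneg _) (by linarith)
        linarith
      have h5 : |εb * εc| ≤ 4 * m ^ 2 * w g E := by
        rw [abs_mul]
        have h6 : |εb| * |εc| ≤ (2 * m * w g E) * (2 * m * w g E) :=
          mul_le_mul eb ec (abs_nonneg _) (by positivity)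
        have h7 : w g E * w g E ≤ w g E * 1 := mul_le_mul_of_nonneg_left (w_le_one hg E) hwE.le
        have h8 : 4 * (m : ℝ) ^ 2 * (w g E * w g E) ≤ 4 * m ^ 2 * (w g E * 1) :=
          mul_le_mul_of_nonneg_left h7 (by positivity)
        linarith
      have h6 : |-(Real.log a * εd) + L * (k₂ * εc + k₁ * εb) + εb * εc| ≤
          Y * (2 * m * w g E) + L * (4 * m ^ 2 * w g E) + 4 * m ^ 2 * w g E := by
        refine (abs_add_le _ _).trans (add_le_add ((abs_add_le _ _).trans (add_le_add ?_ h4)) h5)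
        rw [abs_neg]; exact h3
      refine h6.trans ?_
      -- everything is at most `L * (…)`
      have hu : 0 ≤ (m : ℝ) ^ 2 * Y * w g E := by positivity
      have h7 : Y * (2 * m * w g E) ≤ 2 * (m ^ 2 * Y * w g E) := by
        have : (m : ℝ) ≤ m ^ 2 := by nlinarith
        have h8 : 0 ≤ (Y : ℝ) * w g E := by positivity
        nlinarith
      have h8 : (m : ℝ) ^ 2 * w g E ≤ m ^ 2 * Y * w g E := by
        have : 0 ≤ (m : ℝ) ^ 2 * w g E := by positivity
        nlinarith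
      have h9 : (m : ℝ) ^ 2 * Y * w g E ≤ 2 * L * (m ^ 2 * Y * w g E) := by
        have : 1 ≤ 2 * L := by linarith
        nlinarith
      nlinarith
    exact le_of_mul_le_mul_left h1 hL0
  have hk1p : 1 ≤ k₁ := Hc.pos
  have hk2p : 1 ≤ k₂ := Hb.pos
  have hk3p : 1 ≤ k₃ := Hd.pos
  have hpow : g ^ (k₁ * k₂) = a ^ k₃ := by
    refine F.lfl hg ha2 (Nat.mul_pos hk1p hk2p) hk3p ?_ ?_ F.gY haY hsm
    · rw [sq]; exact Nat.mul_le_mul (h12.trans h2m) h2m
    · have : m ≤ m ^ 2 := by have := S.hm; nlinarith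
      omega
  have hlog := log_of_pow_eq hpow
  rw [← hLdef] at hlog
  push_cast at hlog
  -- `κ = log a / L`
  obtain ⟨κ, hκ⟩ : ∃ κ : ℝ, κ = Real.log a / L := ⟨_, rfl⟩
  have hκL : κ * L = Real.log a := by rw [hκ]; field_simp
  have hκ0 : 0 < κ := by rw [hκ]; positivity
  have hκn : κ * k₃ = k₁ * k₂ := by
    have : L * (κ * k₃) = L * (k₁ * k₂) := by
      calc L * (κ * k₃) = (κ * L) * k₃ := by ring
        _ = k₃ * Real.log a := by rw [hκL]; ring
        _ = k₁ * k₂ * L := by rw [hlog]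
        _ = L * (k₁ * k₂) := by ring
    exact mul_left_cancel₀ hL0.ne' this
  have hκY : κ ≤ 2 * Y := by
    have : κ * L ≤ Y := by rw [hκL]; exact haY
    nlinarith
  have hκm : κ ≤ m := by
    have : (2 * Y : ℝ) ≤ m := by exact_mod_cast F.Ym
    linarith
  have h4k : 4 * k₂ ≤ k₃ := by
    have h1 : (8 * Y : ℝ) ≤ k₁ := by exact_mod_cast F.EY.trans h1E
    have h2 : 4 * κ ≤ k₁ := by linarith
    have h3 : κ * (4 * k₂) ≤ κ * k₃ := by
      rw [hκn]
      have : (0 : ℝ) ≤ k₂ := Nat.cast_nonneg _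
      nlinarith
    have h4 : (4 * k₂ : ℝ) ≤ k₃ := le_of_mul_le_mul_left h3 hκ0
    exact_mod_cast h4
  have heq' : κ * L * εd = L * (k₂ * εc + k₁ * εb) + εc * εb := by
    have h0 : L * (k₃ * Real.log a - k₁ * k₂ * L) = 0 := by rw [← hlog]; ring
    rw [h0] at hF
    rw [hκL]
    linear_combination hF
  rcases gamma S Dc Db Dd hL hκ0 hκm (hEr.trans h1E) h12 (by omega) (fun _ => by omega) hκn heq' with
    ⟨h1, h2, h3⟩ | ⟨h1, h2, h3⟩
  · left
    refine ⟨k₃, k₁, hk3p, hk1p, ?_, ?_⟩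
    · rw [e2, h2, ← hlog]; ring
    · rw [e3, e4, h1, h3]; ring
  · exfalso
    subst h1
    subst h2
    refine so_far (n₃ := k₃) S Dc Db Dd h3 hL hκ0 hκm (by omega) (by omega) ?_
    linear_combination heq'

/-- One small entry, at the position of `a`. -/
lemma case1 {g m r Y N E k₁ k₂ k₃ a b c d : ℕ} {cb cc cd : ℤ} (S : Sz g m r)
    (F : Lf g m r Y N E)
    (ha2 : 2 ≤ a) (haY : Real.log a ≤ Y)
    (Hb : Nr g b k₂ cb) (Hc : Nr g c k₁ cc) (Hd : Nr g d k₃ cd)
    (h1E : E ≤ k₁) (h2E : E ≤ k₂) (h3E : E ≤ k₃) (h1m : k₁ ≤ m) (h2m : k₂ ≤ m) (h3m : k₃ ≤ m)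
    (heq : Real.log a * Real.log d = Real.log b * Real.log c) :
    Dep (Real.log a) (Real.log b) (Real.log c) (Real.log d) := by
  rcases Nat.le_total k₁ k₂ with h | h
  · exact case1_aux S F ha2 haY Hb Hc Hd h1E h2E h3E h2m h3m h heq
  · exact (case1_aux S F ha2 haY Hc Hb Hd h2E h1E h3E h1m h3m h (by rw [heq]; ring)).tr

/-- Two small entries, the first row `(a, b)`. -/
lemma case2 {g m r Y N E k₁ k₂ a b c d : ℕ} {cc cd : ℤ} (S : Sz g m r)
    (F : Lf g m r Y N E)
    (ha2 : 2 ≤ a) (haY : Real.log a ≤ Y) (hb2 : 2 ≤ b) (hbY : Real.log b ≤ Y)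
    (hc2 : 2 ≤ c) (hd2 : 2 ≤ d)
    (Hc : Nr g c k₁ cc) (Hd : Nr g d k₂ cd)
    (h1E : E ≤ k₁) (h2E : E ≤ k₂) (h1m : k₁ ≤ m) (h2m : k₂ ≤ m)
    (heq : Real.log a * Real.log d = Real.log b * Real.log c) :
    Dep (Real.log a) (Real.log b) (Real.log c) (Real.log d) := by
  have hg := S.hg
  have hm := S.m1
  have hr20 := S.r20
  have hEr := F.Er
  have hkb := S.k_big (hEr.trans h1E)
  have hkb2 := S.k_big (hEr.trans h2E)
  have hL := half_le_log hg
  set L := Real.log g with hLdef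
  have hL0 : 0 < L := by linarith
  have hla : 0 < Real.log a := Real.log_pos (by exact_mod_cast (by omega : 1 < a))
  have hlb : 0 < Real.log b := Real.log_pos (by exact_mod_cast (by omega : 1 < b))
  have Dc := Hc.dat hg h1m
  have Dd := Hd.dat hg h2m
  rw [← hLdef] at Dc Dd
  set εc := Real.log c - k₁ * L with hεc
  set εd := Real.log d - k₂ * L with hεd
  have e3 : Real.log c = k₁ * L + εc := by rw [hεc]; ring
  have e4 : Real.log d = k₂ * L + εd := by rw [hεd]; ring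
  have hwE := w_pos hg E
  have ec := (Dc.ε_le S (by omega)).trans
    (mul_le_mul_of_nonneg_left (w_anti hg h1E) (by positivity))
  have ed := (Dd.ε_le S (by omega)).trans
    (mul_le_mul_of_nonneg_left (w_anti hg h2E) (by positivity))
  have hY1 : (1 : ℝ) ≤ Y := by exact_mod_cast F.Y1
  have hF : L * (k₂ * Real.log a - k₁ * Real.log b) = Real.log b * εc - Real.log a * εd := by
    rw [e3, e4] at heq
    linear_combination heq
  have hsm : |(k₂ : ℝ) * Real.log a - k₁ * Real.log b| ≤ 16 * (m : ℝ) ^ 2 * Y * w g E := by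
    have h1 : L * |(k₂ : ℝ) * Real.log a - k₁ * Real.log b| ≤
        L * (16 * (m : ℝ) ^ 2 * Y * w g E) := by
      have h2 : L * |(k₂ : ℝ) * Real.log a - k₁ * Real.log b| =
          |L * (k₂ * Real.log a - k₁ * Real.log b)| := by
        rw [abs_mul, abs_of_pos hL0]
      rw [h2, hF]
      have h3 : |Real.log b * εc| ≤ Y * (2 * m * w g E) := by
        rw [abs_mul, abs_of_pos hlb]
        exact mul_le_mul hbY ec (abs_nonneg _) (by linarith)
      have h4 : |Real.log a * εd| ≤ Y * (2 * m * w g E) := by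
        rw [abs_mul, abs_of_pos hla]
        exact mul_le_mul haY ed (abs_nonneg _) (by linarith)
      refine (abs_sub _ _).trans ?_
      have h7 : Y * (2 * m * w g E) ≤ 2 * (m ^ 2 * Y * w g E) := by
        have : (m : ℝ) ≤ m ^ 2 := by nlinarith
        have h8 : 0 ≤ (Y : ℝ) * w g E := by positivity
        nlinarith
      have h9 : (m : ℝ) ^ 2 * Y * w g E ≤ 2 * L * (m ^ 2 * Y * w g E) := by
        have : 1 ≤ 2 * L := by linarith
        have : 0 ≤ (m : ℝ) ^ 2 * Y * w g E := by positivity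
        nlinarith
      have hu : 0 ≤ L * ((m : ℝ) ^ 2 * Y * w g E) := by positivity
      linarith
    exact le_of_mul_le_mul_left h1 hL0
  have hk1p : 1 ≤ k₁ := Hc.pos
  have hk2p : 1 ≤ k₂ := Hd.pos
  have hmm : m ≤ m ^ 2 := by have := S.hm; nlinarith
  have hpow : b ^ k₁ = a ^ k₂ :=
    F.lfl hb2 ha2 hk1p hk2p (h1m.trans hmm) (h2m.trans hmm) hbY haY hsm
  have hlog := log_of_pow_eq hpow
  have hεε : (k₂ : ℝ) * εc = k₁ * εd := by
    have h0 : L * (k₂ * Real.log a - k₁ * Real.log b) = 0 := by rw [hlog]; ring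
    rw [h0] at hF
    have h1 : Real.log b * (k₂ * εc) = Real.log b * (k₁ * εd) := by
      have h2 : Real.log b * εc = Real.log a * εd := by linarith
      calc Real.log b * (k₂ * εc) = k₂ * (Real.log b * εc) := by ring
        _ = k₂ * (Real.log a * εd) := by rw [h2]
        _ = (k₂ * Real.log a) * εd := by ring
        _ = (k₁ * Real.log b) * εd := by rw [hlog]
        _ = Real.log b * (k₁ * εd) := by ring
    exact mul_left_cancel₀ hlb.ne' h1
  rcases lt_trichotomy k₁ k₂ with h | h | h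
  · obtain ⟨h1, h2⟩ := two_terms S Dc Dd (hEr.trans h1E) h hεε
    left
    refine ⟨k₂, k₁, hk2p, hk1p, hlog.symm, ?_⟩
    rw [e3, e4, h1, h2]; ring
  · left
    subst h
    have hk0 : (k₁ : ℝ) ≠ 0 := by exact_mod_cast (by omega : k₁ ≠ 0)
    have h1 := mul_left_cancel₀ hk0 hεε
    refine ⟨k₁, k₁, hk2p, hk1p, hlog.symm, ?_⟩
    rw [e3, e4, h1]
  · obtain ⟨h1, h2⟩ := two_terms S Dd Dc (hEr.trans h2E) h hεε.symm
    left
    refine ⟨k₂, k₁, hk2p, hk1p, hlog.symm, ?_⟩
    rw [e3, e4, h1, h2]; ring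

end Pool.Agent.K4H73.NP
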