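import Mathlib
import Pool.Agent.K4H73.NP.Case12

/-!
# Small, medium and large entries
-/

set_option autoImplicit false

namespace Pool.Agent.K4H73.NP

/-- `n` is near a power of `g` with exponent between `E` and `m` -/
def Q (g m E n : ℕ) : Prop := ∃ k c, Nr g n k c ∧ E ≤ k ∧ k ≤ m

/-- the entry `n`, with three thresholds -/
structure En (g m r E₂ E₃ : ℕ) (U₁ U₂ U₃ : ℝ) (n : ℕ) : Prop where
  two : 2 ≤ n
  q1 : Real.log n ≤ U₁ ∨ Q g m (16 * r ^ 2) n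
  q2 : Real.log n ≤ U₂ ∨ Q g m E₂ n
  q3 : Real.log n ≤ U₃ ∨ Q g m E₃ n

/-- the parameters -/
structure Pm (g m r Y₁ N₁ E₂ Y₂ N₂ E₃ : ℕ) (U₁ U₂ U₃ V : ℝ) : Prop where
  S : Sz g m r
  F₁ : Lf g m r Y₁ N₁ E₂
  F₂ : Lf g m r Y₂ N₂ E₃
  h1 : U₁ ≤ Y₁
  h2 : U₂ ≤ Y₂
  h12 : U₁ ≤ U₂
  h23 : U₂ ≤ U₃
  hV : U₃ * U₃ ≤ V / 2

lemma log_half {n : ℕ} (h : 2 ≤ n) : 1 / 2 ≤ Real.log n := half_le_log h

lemma no_prod {x y u v : ℕ} {U V : ℝ} (hx : 2 ≤ x) (hy : 2 ≤ y) (hu2 : 2 ≤ u) (hv2 : 2 ≤ v)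
    (hU : Real.log x ≤ U)
    (hU' : Real.log y ≤ U) (hV : U * U ≤ V / 2) (h : V < Real.log u ∨ V < Real.log v)
    (heq : Real.log x * Real.log y = Real.log u * Real.log v) : False := by
  have h1 := log_half hx
  have h2 := log_half hy
  have h3 := log_half hu2
  have h4 := log_half hv2
  have h5 : Real.log x * Real.log y ≤ U * U := mul_le_mul hU hU' (by linarith) (by linarith)
  have hV0 : 0 ≤ V := by nlinarith
  rcases h with h | h
  · nlinarith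
  · nlinarith

section
variable {g m r Y₁ N₁ E₂ Y₂ N₂ E₃ : ℕ} {U₁ U₂ U₃ V : ℝ}

lemma asm_row (P : Pm g m r Y₁ N₁ E₂ Y₂ N₂ E₃ U₁ U₂ U₃ V) {a b c d : ℕ}
    (Ha : En g m r E₂ E₃ U₁ U₂ U₃ a) (Hb : En g m r E₂ E₃ U₁ U₂ U₃ b)
    (Hc : En g m r E₂ E₃ U₁ U₂ U₃ c) (Hd : En g m r E₂ E₃ U₁ U₂ U₃ d)
    (hmax : V < Real.log a ∨ V < Real.log b ∨ V < Real.log c ∨ V < Real.log d)
    (heq : Real.log a * Real.log d = Real.log b * Real.log c)
    (ha : Real.log a ≤ U₂) (hb : Real.log b ≤ U₂) :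
    Dep (Real.log a) (Real.log b) (Real.log c) (Real.log d) := by
  have hU : U₃ * U₃ ≤ V / 2 := P.hV
  have l1 := log_half Ha.two
  have hU2 : 1 / 2 ≤ U₂ := l1.trans ha
  have hVU : U₂ ≤ V := by
    have := P.h23
    nlinarith [P.hV]
  have hmax' : V < Real.log c ∨ V < Real.log d := by
    rcases hmax with h | h | h | h
    · linarith
    · linarith
    · exact Or.inl h
    · exact Or.inr h
  rcases Hc.q3 with hc | ⟨kc, cc, Nc, hc1, hc2⟩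
  · -- `d` is the largest entry
    exfalso
    have h23 := P.h23
    rcases hmax' with h | h
    · have : U₃ ≤ V := by nlinarith
      linarith
    · exact no_prod Hb.two Hc.two Ha.two Hd.two (hb.trans h23) hc hU (Or.inr h) heq.symm
  rcases Hd.q3 with hd | ⟨kd, cd, Nd, hd1, hd2⟩
  · exfalso
    have h23 := P.h23
    rcases hmax' with h | h
    · exact no_prod Ha.two Hd.two Hb.two Hc.two (ha.trans h23) hd hU (Or.inr h) heq
    · have : U₃ ≤ V := by nlinarith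
      linarith
  exact case2 P.S P.F₂ Ha.two (ha.trans P.h2) Hb.two (hb.trans P.h2) Hc.two Hd.two Nc Nd hc1 hd1 hc2 hd2
    heq

lemma asm_small (P : Pm g m r Y₁ N₁ E₂ Y₂ N₂ E₃ U₁ U₂ U₃ V) {a b c d : ℕ}
    (Ha : En g m r E₂ E₃ U₁ U₂ U₃ a) (Hb : En g m r E₂ E₃ U₁ U₂ U₃ b)
    (Hc : En g m r E₂ E₃ U₁ U₂ U₃ c) (Hd : En g m r E₂ E₃ U₁ U₂ U₃ d)
    (hmax : V < Real.log a ∨ V < Real.log b ∨ V < Real.log c ∨ V < Real.log d)
    (heq : Real.log a * Real.log d = Real.log b * Real.log c)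
    (ha : Real.log a ≤ U₁) :
    Dep (Real.log a) (Real.log b) (Real.log c) (Real.log d) := by
  have h12 := P.h12
  have h23 := P.h23
  rcases Hb.q2 with hb | ⟨kb, cb, Nb, hb1, hb2⟩
  · exact asm_row P Ha Hb Hc Hd hmax heq (ha.trans h12) hb
  rcases Hc.q2 with hc | ⟨kc, cc, Nc, hc1, hc2⟩
  · refine (asm_row P Ha Hc Hb Hd ?_ (by rw [heq]; ring) (ha.trans h12) hc).tr
    tauto
  rcases Hd.q2 with hd | ⟨kd, cd, Nd, hd1, hd2⟩
  · exfalso
    have l1 := log_half Ha.two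
    have hU := P.hV
    have hVU : U₂ ≤ V := by
      have : 1 / 2 ≤ U₂ := l1.trans (ha.trans h12)
      nlinarith
    have hmax' : V < Real.log b ∨ V < Real.log c := by
      rcases hmax with h | h | h | h
      · linarith
      · exact Or.inl h
      · exact Or.inr h
      · linarith
    exact no_prod Ha.two Hd.two Hb.two Hc.two (ha.trans (h12.trans h23)) (hd.trans h23) hU hmax' heq
  exact case1 P.S P.F₁ Ha.two (ha.trans P.h1) Nb Nc Nd hc1 hb1 hd1 hc2 hb2 hd2 heq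

theorem asm (P : Pm g m r Y₁ N₁ E₂ Y₂ N₂ E₃ U₁ U₂ U₃ V) {a b c d : ℕ}
    (Ha : En g m r E₂ E₃ U₁ U₂ U₃ a) (Hb : En g m r E₂ E₃ U₁ U₂ U₃ b)
    (Hc : En g m r E₂ E₃ U₁ U₂ U₃ c) (Hd : En g m r E₂ E₃ U₁ U₂ U₃ d)
    (hmax : V < Real.log a ∨ V < Real.log b ∨ V < Real.log c ∨ V < Real.log d)
    (heq : Real.log a * Real.log d = Real.log b * Real.log c) :
    Dep (Real.log a) (Real.log b) (Real.log c) (Real.log d) := by
  rcases Ha.q1 with ha | ⟨ka, ca, Na, ha1, ha2⟩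
  · exact asm_small P Ha Hb Hc Hd hmax heq ha
  rcases Hb.q1 with hb | ⟨kb, cb, Nb, hb1, hb2⟩
  · refine (asm_small P Hb Ha Hd Hc ?_ heq.symm hb).cols
    tauto
  rcases Hc.q1 with hc | ⟨kc, cc, Nc, hc1, hc2⟩
  · refine (asm_small P Hc Hd Ha Hb ?_ (by rw [mul_comm, ← heq, mul_comm]) hc).rows
    tauto
  rcases Hd.q1 with hd | ⟨kd, cd, Nd, hd1, hd2⟩
  · refine (asm_small P Hd Hc Hb Ha ?_ (by rw [mul_comm, heq, mul_comm]) hd).rows.cols
    tauto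
  exact case0 P.S Na Nb Nc Nd Ha.two Hb.two Hc.two Hd.two ha1 hb1 hc1 hd1 ha2 hb2 hc2 hd2 heq

end

end Pool.Agent.K4H73.NP
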