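import Mathlib
import Pool.Agent.K4H73.NP.Assemble

/-!
# The choice of the parameters
-/

set_option autoImplicit false

namespace Pool.Agent.K4H73.NP

open Filter

lemma pow_le_two_pow (p : ℕ) : ∃ T : ℕ, ∀ t : ℕ, T ≤ t → t ^ p ≤ 2 ^ t := by
  have h := tendsto_pow_const_div_const_pow_of_one_lt p (r := (2 : ℝ)) (by norm_num)
  have h1 : ∀ᶠ n : ℕ in atTop, (n : ℝ) ^ p / 2 ^ n < 1 := h.eventually (gt_mem_nhds (by norm_num))
  obtain ⟨T, hT⟩ := eventually_atTop.1 h1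
  refine ⟨T, fun t ht => ?_⟩
  have h2 := hT t ht
  rw [div_lt_one (by positivity)] at h2
  exact_mod_cast h2.le

lemma lin_le_two_pow {t : ℕ} (ht : 10 ≤ t) : 48 * t + 120 ≤ 2 ^ t := by
  induction t, ht using Nat.le_induction with
  | base => norm_num
  | succ t ht ih =>
    rw [pow_succ]
    omega

/-- the lower bound for the exponents -/
def Eb (t κ : ℕ) : ℕ := 2 * (20880 * (t ^ κ) ^ 2 * (48 * t + 120) ^ 2) + 16 * (12 * t + 32) ^ 2 +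
  8 * t ^ κ + (5 * t + 8)

lemma mkLf {g t κ : ℕ} (hg : 2 ≤ g) (ht : 10 ≤ t) (hgt : Real.log g ≤ ((t ^ κ : ℕ) : ℝ))
    (hY : t ^ κ ≤ 2 ^ t) :
    Lf g (4 ^ (t + 1)) (12 * t + 32) (t ^ κ) (48 * t + 120) (Eb t κ) := by
  have hN := lin_le_two_pow ht
  have hm : (4 : ℕ) ^ (t + 1) = 2 ^ (2 * t + 2) := by
    rw [show (4 : ℕ) = 2 ^ 2 by norm_num, ← pow_mul]; congr 1
  have hY0 : 1 ≤ t ^ κ := Nat.one_le_pow _ _ (by omega)
  obtain ⟨Y, hYd⟩ : ∃ Y, Y = t ^ κ := ⟨_, rfl⟩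
  obtain ⟨N, hNd⟩ : ∃ N, N = 48 * t + 120 := ⟨_, rfl⟩
  rw [← hYd] at hY hgt hY0
  rw [← hNd] at hN
  unfold Eb
  rw [← hYd, ← hNd, hm]
  have hY1 : 1 ≤ Y := by omega
  have hN1 : 1 ≤ N := by omega
  have hYr : (1 : ℝ) ≤ Y := by exact_mod_cast hY1
  have hNr : (1 : ℝ) ≤ N := by exact_mod_cast hN1
  refine ⟨hY1, hN1, hgt, ?_, ?_, ?_, ?_, ?_⟩
  · calc 2 * Y ≤ 2 * 2 ^ t := Nat.mul_le_mul_left _ hY
      _ = 2 ^ (t + 1) := by rw [pow_succ]; ring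
      _ ≤ 2 ^ (2 * t + 2) := Nat.pow_le_pow_right (by norm_num) (by omega)
  · have h1 : 290 * Y * N * (2 * (2 ^ (2 * t + 2)) ^ 2) ≤ 2 ^ (6 * t + 14) := by
      calc 290 * Y * N * (2 * (2 ^ (2 * t + 2)) ^ 2)
          ≤ 2 ^ 9 * 2 ^ t * 2 ^ t * (2 * (2 ^ (2 * t + 2)) ^ 2) := by
            refine Nat.mul_le_mul_right _ (Nat.mul_le_mul (Nat.mul_le_mul (by norm_num) hY) hN)
        _ = 2 ^ (6 * t + 14) := by
            rw [← pow_mul, ← pow_succ', ← pow_add, ← pow_add, ← pow_add]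
            congr 1; ring
    have h2 : (290 * Y * N * (2 * ((2 ^ (2 * t + 2) : ℕ) : ℝ) ^ 2)) ≤ (2 : ℝ) ^ (6 * t + 14) := by
      exact_mod_cast h1
    have h3 : Real.log (290 * Y * N * (2 * ((2 ^ (2 * t + 2) : ℕ) : ℝ) ^ 2)) ≤ (6 * t + 14 : ℕ) := by
      refine (Real.log_le_log (by positivity) h2).trans ?_
      rw [Real.log_pow]
      have h4 : Real.log 2 ≤ 1 := by
        have := Real.log_two_lt_d9
        linarith
      have h5 : (0 : ℝ) ≤ ((6 * t + 14 : ℕ) : ℝ) := by positivity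
      nlinarith
    have h4 : (N : ℝ) = 48 * t + 120 := by rw [hNd]; push_cast; ring
    rw [h4] at h3 ⊢
    push_cast at h3 ⊢
    linarith
  · exact (Nat.le_add_left _ _).trans ((Nat.le_add_right _ _).trans (Nat.le_add_right _ _))
  · exact (Nat.le_add_left _ _).trans (Nat.le_add_right _ _)
  · obtain ⟨X, hX⟩ : ∃ X : ℕ, X = 20880 * Y ^ 2 * N ^ 2 := ⟨_, rfl⟩
    have hXr : 20880 * (Y : ℝ) ^ 2 * (N : ℝ) ^ 2 = X := by rw [hX]; push_cast; ring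
    rw [hXr, ← hX]
    obtain ⟨E, hE⟩ : ∃ E : ℕ, E = 2 * X + 16 * (12 * t + 32) ^ 2 + 8 * Y + (5 * t + 8) := ⟨_, rfl⟩
    rw [← hE]
    have h1 := w_two hg (g := g) E
    have h2 : 16 * (2 ^ (2 * t + 2)) ^ 2 * Y ≤ 2 ^ (5 * t + 8) := by
      calc 16 * (2 ^ (2 * t + 2)) ^ 2 * Y ≤ 16 * (2 ^ (2 * t + 2)) ^ 2 * 2 ^ t :=
            Nat.mul_le_mul_left _ hY
        _ = 2 ^ 4 * (2 ^ (2 * t + 2)) ^ 2 * 2 ^ t := by norm_num
        _ = 2 ^ (5 * t + 8) := by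
            rw [← pow_mul, ← pow_add, ← pow_add]
            congr 1; ring
    have h3 : (16 * ((2 ^ (2 * t + 2) : ℕ) : ℝ) ^ 2 * Y) ≤ (2 : ℝ) ^ (5 * t + 8) := by
      exact_mod_cast h2
    have h4 : Real.exp X ≤ (2 : ℝ) ^ (2 * X) := by
      have h5 : Real.exp X = Real.exp 1 ^ X := by rw [← Real.exp_nat_mul, mul_one]
      rw [h5, pow_mul]
      refine pow_le_pow_left₀ (Real.exp_pos 1).le ?_ X
      have := Real.exp_one_lt_d9
      norm_num; linarith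
    rw [Real.exp_neg]
    have h5 : 16 * ((2 ^ (2 * t + 2) : ℕ) : ℝ) ^ 2 * Y * w g E ≤
        (2 : ℝ) ^ (5 * t + 8) * ((2 : ℝ) ^ E)⁻¹ :=
      mul_le_mul h3 h1 (w_pos hg E).le (by positivity)
    refine h5.trans ?_
    rw [← one_div (Real.exp _), le_div_iff₀ (Real.exp_pos _), ← div_eq_mul_inv,
      div_mul_eq_mul_div, div_le_one (by positivity)]
    calc (2 : ℝ) ^ (5 * t + 8) * Real.exp X ≤ (2 : ℝ) ^ (5 * t + 8) * 2 ^ (2 * X) :=
          mul_le_mul_of_nonneg_left h4 (by positivity)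
      _ = 2 ^ (5 * t + 8 + 2 * X) := by rw [← pow_add]
      _ ≤ 2 ^ E := pow_le_pow_right₀ (by norm_num) (by omega)

lemma Eb_le {t κ K : ℕ} (hκ : 1 ≤ κ) (ht : 700000001 ≤ t) :
    t ^ K * Eb t κ + 1 ≤ t ^ (2 * κ + 3 + K) := by
  have ht1 : 1 ≤ t := by omega
  have h0 : t ≤ t ^ κ := by
    calc t = t ^ 1 := (pow_one t).symm
      _ ≤ t ^ κ := Nat.pow_le_pow_right ht1 hκ
  have h2 : 48 * t + 120 ≤ 60 * t := by omega
  have h3 : 12 * t + 32 ≤ 16 * t := by omega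
  obtain ⟨Z, hZ⟩ : ∃ Z, Z = t ^ (2 * κ + 2) := ⟨_, rfl⟩
  have hZ1 : t ^ (2 * κ + 3 + K) = t ^ K * (Z * t) := by
    rw [hZ, ← pow_succ, ← pow_add]; congr 1; ring
  have hZa : (t ^ κ) ^ 2 * t ^ 2 = Z := by rw [hZ, ← pow_mul, ← pow_add]; congr 1; ring
  have hZb : t ^ 2 ≤ Z := by rw [hZ]; exact Nat.pow_le_pow_right ht1 (by omega)
  have hZc : t ^ κ ≤ Z := by rw [hZ]; exact Nat.pow_le_pow_right ht1 (by omega)
  have hZd : t ≤ Z := by
    calc t = t ^ 1 := (pow_one t).symm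
      _ ≤ Z := by rw [hZ]; exact Nat.pow_le_pow_right ht1 (by omega)
  have e1 : 2 * (20880 * (t ^ κ) ^ 2 * (48 * t + 120) ^ 2) ≤ 150336000 * Z := by
    calc 2 * (20880 * (t ^ κ) ^ 2 * (48 * t + 120) ^ 2)
        ≤ 2 * (20880 * (t ^ κ) ^ 2 * (60 * t) ^ 2) := by gcongr
      _ = 150336000 * ((t ^ κ) ^ 2 * t ^ 2) := by ring
      _ = _ := by rw [hZa]
  have e2 : 16 * (12 * t + 32) ^ 2 ≤ 4096 * Z := by
    calc 16 * (12 * t + 32) ^ 2 ≤ 16 * (16 * t) ^ 2 := by gcongr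
      _ = 4096 * t ^ 2 := by ring
      _ ≤ _ := Nat.mul_le_mul_left _ hZb
  have e3 : 8 * t ^ κ ≤ 16 * Z := by omega
  have e4 : 5 * t + 8 ≤ 6 * Z := by omega
  have hE : Eb t κ ≤ 700000000 * Z := by unfold Eb; omega
  have hK : 1 ≤ t ^ K := Nat.one_le_pow _ _ (by omega)
  have hKZ : 1 ≤ t ^ K * Z := Nat.mul_pos hK (by omega)
  rw [hZ1]
  calc t ^ K * Eb t κ + 1 ≤ t ^ K * (700000000 * Z) + t ^ K * Z := by gcongr
    _ = t ^ K * (Z * 700000001) := by ring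
    _ ≤ t ^ K * (Z * t) := by gcongr

/-- bounds for the exponent of a number near a power -/
lemma Nr.bounds {g n k : ℕ} {c : ℤ} (hg : 2 ≤ g) (h : Nr g n k c) :
    |Real.log n - k * Real.log g| ≤ 1 := by
  have D := h.dat hg (le_refl k)
  have h1 := D.near hg
  have h2 := z_half hg h.le h.pos
  have h3 : ((c : ℝ) * w g k) ^ 2 ≤ 1 / 4 := by
    rw [← sq_abs]
    calc |(c : ℝ) * w g k| ^ 2 ≤ (1 / 2) ^ 2 := pow_le_pow_left₀ (abs_nonneg _) h2 2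
      _ = 1 / 4 := by norm_num
  have h4 := abs_add_le (Real.log n - k * Real.log g - c * w g k) (c * w g k)
  rw [sub_add_cancel] at h4
  linarith

lemma Nr.k_ge {g n k E G : ℕ} {c : ℤ} (hg : 2 ≤ g) (h : Nr g n k c) (hG : Real.log g ≤ G) {U : ℝ}
    (hU : (G * E + 1 : ℕ) ≤ U) (hn : U < Real.log n) : E ≤ k := by
  by_contra hcon
  push Not at hcon
  have h1 := (abs_le.1 (h.bounds hg)).2
  have h3 : (k : ℝ) ≤ E := by exact_mod_cast hcon.le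
  have h4 : (k : ℝ) * Real.log g ≤ E * G :=
    mul_le_mul h3 hG (by linarith [half_le_log hg]) (Nat.cast_nonneg _)
  push_cast at hU
  linarith

lemma Nr.k_le {g n k t : ℕ} {c : ℤ} (hg : 2 ≤ g) (h : Nr g n k c)
    (hn : Real.log n ≤ Real.exp t) : k ≤ 4 ^ (t + 1) := by
  have h1 := (abs_le.1 (h.bounds hg)).1
  have h2 := half_le_log hg
  have h3 : (k : ℝ) ≤ 2 * Real.exp t + 2 := by
    have : (0 : ℝ) ≤ k := Nat.cast_nonneg _
    nlinarith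
  have h4 : Real.exp t ≤ 4 ^ t := by
    have h5 : Real.exp t = Real.exp 1 ^ t := by rw [← Real.exp_nat_mul, mul_one]
    rw [h5]
    refine pow_le_pow_left₀ (Real.exp_pos 1).le ?_ t
    have := Real.exp_one_lt_d9
    linarith
  have h5 : (1 : ℝ) ≤ 4 ^ t := one_le_pow₀ (by norm_num)
  have h6 : (k : ℝ) ≤ 4 ^ (t + 1) := by rw [pow_succ]; linarith
  exact_mod_cast h6

end Pool.Agent.K4H73.NP
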